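import Pool.Agent.Lib.MP_02f36d_nt.NP.TwMain
import Pool.Agent.Lib.MP_d6ddbd_nt.KA.All

/-! Parity for almost all quadratic twists of `X₀(11)` over every Galois number field whose group
has a normal `2`-complement. -/

set_option autoImplicit false

open Filter Topology NumberField

namespace Pool.Agent.Lib.MP_02f36d_nt.NP

theorem every_field (M K : Type) [Field M] [NumberField M] [DecidableEq M] [IsGalois ℚ M]
    [Field K] [NumberField K] [DecidableEq K] [Algebra M K]
    (G : Subgroup (K ≃ₐ[ℚ] K)) (N : Subgroup G) [N.Normal] (h1 : Odd (Nat.card N))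
    (h2 : IsPGroup 2 (G ⧸ N)) (hM : ∀ τ : M ≃ₐ[ℚ] M, τ ^ 2 = 1)
    (hr : ∀ x : K, (∀ σ ∈ G, σ (σ x) = x) → x ∈ Set.range (algebraMap M K)) :
    Dz {D | Squarefree D ∧ D % 4 = 1 ∧ D.natAbs.Coprime 33 ∧
      ¬ (Module.Finite ℤ (WK D K).toAffine.Point ∧
        Module.finrank ℤ (WK D M).toAffine.Point ≤ Module.finrank ℚ M ∧
        T17.HasRoot (WK D K) ((-1) ^ Module.finrank ℤ (WK D K).toAffine.Point))} :=
  every Pool.Agent.Lib.MP_d6ddbd_nt.KA.mainAll M K G N h1 h2 hM hr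

end Pool.Agent.Lib.MP_02f36d_nt.NP
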