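import Pool.Agent.Lib.MP_02f36d_nt.QF.Kum
import Pool.Agent.Lib.MP_02f36d_nt.C17.Rk
import Pool.Agent.Lib.MP_ca56d1_nt.SUnit

/-! The theorem of Mordell and Weil for `X₀(11)` and its twists over any number field. -/

set_option autoImplicit false

open WeierstrassCurve WeierstrassCurve.Affine Height Pool.Agent.C17 Pool.Agent.Stark
open Pool.Agent.Lib.MP_02f36d_nt.X11 (Wd)

noncomputable section

namespace Pool.Agent.Lib.MP_02f36d_nt.NP

open QF

variable {L : Type} [Field L] [NumberField L]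

theorem ev_of (v : Pr L) {x u w y : L} (hy : y ≠ 0) (hu : u ≠ 0) (hw : w ≠ 0)
    (h : y ^ 2 = x * (x + u) * (x + w)) (h1 : og v u = 0) (h2 : og v w = 0) : Even (og v x) := by
  have n := h ▸ pow_ne_zero 2 hy
  have a := left_ne_zero_of_mul (left_ne_zero_of_mul n)
  have e := congrArg (og v) h
  simp only [og] at *
  rw [ord_pow, ord_mul (left_ne_zero_of_mul n) (right_ne_zero_of_mul n),
    ord_mul a (right_ne_zero_of_mul (left_ne_zero_of_mul n))] at e
  rw [Int.even_iff]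
  rcases lt_trichotomy (ord (v.valuation L) x) 0 with k | k | k
  · rw [(ord_add_of_lt a hu (h1 ▸ k)).2, (ord_add_of_lt a hw (h2 ▸ k)).2] at e
    push_cast at e
    omega
  · rw [k]; rfl
  · rw [add_comm x, add_comm x, (ord_add_of_lt hu a (h1 ▸ k)).2,
      (ord_add_of_lt hw a (h2 ▸ k)).2] at e
    push_cast at e
    omega

variable [DecidableEq L]

theorem fg_cv {a b p q : L} (hp : p ≠ 0) (hq : q ≠ 0) (hpq : p ≠ q) (ha : a = -(p + q))
    (hb : b = p * q) : AddGroup.FG (Rk.G a b) := by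
  classical
  have d := sub_ne_zero.2 hpq
  have : (Rk.cv a b).IsElliptic := ⟨isUnit_iff_ne_zero.2 (by
    have : (Rk.cv a b).Δ = 16 * (p * q * (p - q)) ^ 2 := by
      simp only [Rk.cv, Δ, b₂, b₄, b₆, b₈, ha, hb]
      ring
    rw [this]
    exact mul_ne_zero (by norm_num) (pow_ne_zero _ (mul_ne_zero (mul_ne_zero hp hq) d)))⟩
  obtain ⟨C, hC⟩ := Rk.ht_par (a := a) (b := b)
  have hT := AddCommGroup.finite_torsion_of_descent' hC
  have e0 : 3 * (0 : L) ^ 2 + 2 * a * 0 + b ≠ 0 := by simpa [hb] using ⟨hp, hq⟩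
  have e1 : 3 * p ^ 2 + 2 * a * p + b ≠ 0 := by
    rw [show 3 * p ^ 2 + 2 * a * p + b = p * (p - q) by rw [ha, hb]; ring]
    exact mul_ne_zero hp d
  let ψ : ∀ e : L, e ^ 3 + a * e ^ 2 + b * e = 0 → 3 * e ^ 2 + 2 * a * e + b ≠ 0 →
      Rk.G a b →+ SqCl L := fun e h he => AddMonoidHom.mk' (fun P => cl (Rk.al e P)) fun P Q => by
    rw [← cl_mul (Rk.al_ne he _) (Rk.al_ne he _),
      cl_eq_cl (Rk.al_ne he _) (mul_ne_zero (Rk.al_ne he _) (Rk.al_ne he _)), ← mul_assoc]
    exact Rk.al_add h he _ _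
  let φ := (ψ 0 (by ring) e0).prod (ψ p (by rw [ha, hb]; ring) e1)
  have key : ∀ P : Rk.G a b, P ∈ AddCommGroup.torsion (Rk.G a b) ∨ ∃ x y h, P = .some x y h ∧
      y ≠ 0 ∧ y ^ 2 = x * (x - p) * (x - q) ∧ Rk.al 0 P = x ∧ Rk.al p P = x - p := fun P => by
    match P with
    | 0 => exact Or.inl (zero_mem _)
    | .some x y h =>
      by_cases hy : y = 0
      · refine Or.inl (isOfFinAddOrder_iff_nsmul_eq_zero.2 ⟨2, two_pos, ?_⟩)
        rw [two_nsmul]
        exact Point.add_self_of_Y_eq (by rw [Rk.negY_cv, hy, neg_zero])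
      have e : y ^ 2 = x * (x - p) * (x - q) := by rw [Rk.eqn h, ha, hb]; ring
      have n := e ▸ pow_ne_zero 2 hy
      refine Or.inr ⟨x, y, h, rfl, hy, e, ?_, ?_⟩
      · rw [Rk.al_some, if_neg (left_ne_zero_of_mul (left_ne_zero_of_mul n)), sub_zero]
      · rw [Rk.al_some, if_neg (sub_ne_zero.1 (right_ne_zero_of_mul (left_ne_zero_of_mul n)))]
  let S : Finset (Pr L) := (((og_finite p).union (og_finite q)).union (og_finite (p - q))).toFinset
  have hS : ∀ v ∉ S, og v p = 0 ∧ og v q = 0 ∧ og v (p - q) = 0 := fun v hv => by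
    simpa [S, and_assoc] using hv
  have := finite_Sel S
  have f1 : (Sel S : Set (SqCl L)).Finite := Module.finite_of_finite (ZMod 2) (M := Sel S)
  have f2 : Finite φ.range := by
    refine Set.Finite.subset ((f1.prod f1).union
      ((Set.toFinite (AddCommGroup.torsion (Rk.G a b) : Set _)).image φ)) ?_
    rintro _ ⟨P, rfl⟩
    rcases key P with h | ⟨x, y, h, -, hy, e, a0, a1⟩
    · exact Or.inr ⟨P, h, rfl⟩
    refine Or.inl ⟨⟨_, ⟨Rk.al_ne e0 P, fun v hv => ?_⟩, rfl⟩, ⟨_, ⟨Rk.al_ne e1 P, fun v hv => ?_⟩,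
      rfl⟩⟩ <;> obtain ⟨s1, s2, s3⟩ := hS v hv
    · rw [a0]
      exact ev_of v hy (neg_ne_zero.2 hp) (neg_ne_zero.2 hq) (by rw [e]; ring)
        ((ord_neg _).trans s1) ((ord_neg _).trans s2)
    · rw [a1]
      exact ev_of v hy hp d (by rw [e]; ring) s1 s3
  have f3 : φ.ker ≤ (nsmulAddMonoidHom (α := Rk.G a b) 2).range ⊔
      AddCommGroup.torsion (Rk.G a b) := fun P hP => by
    rcases key P with h | ⟨x, y, h, rfl, hy, e, a0, a1⟩
    · exact AddSubgroup.mem_sup_right h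
    have b0 := (cl_eq_zero (Rk.al_ne e0 _)).1 (congrArg Prod.fst hP)
    have b1 := (cl_eq_zero (Rk.al_ne e1 _)).1 (congrArg Prod.snd hP)
    obtain ⟨Q, hQ⟩ := Rk.half hp hq hpq ha hb h hy (a0 ▸ b0) (a1 ▸ b1)
    exact AddSubgroup.mem_sup_left ⟨Q, by rw [nsmulAddMonoidHom_apply, two_nsmul, hQ]⟩
  refine AddCommGroup.fg_of_descent' (h := Rk.ht) ⟨?_⟩ (fun P => logHeight_nonneg _) hC
  rw [← AddSubgroup.relIndex_mul_index (le_sup_left (b := AddCommGroup.torsion (Rk.G a b))),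
    AddSubgroup.relIndex_sup_left]
  exact mul_ne_zero AddSubgroup.index_ne_zero_of_finite
    (AddSubgroup.finiteIndex_of_le f3).index_ne_zero

theorem fg_of {K : Type} [Field K] [DecidableEq K] (j : K →+* L) (W : Affine K) {a b p q : L}
    (hp : p ≠ 0) (hq : q ≠ 0) (hpq : p ≠ q) (ha : a = -(p + q)) (hb : b = p * q)
    {C : VariableChange L} (h : C • (Rk.cv a b).toAffine = W.map j) (hc : W.c₄ ≠ 0) :
    Module.Finite ℤ W.Point := by
  have := Module.Finite.iff_addGroup_fg.2 (fg_cv hp hq hpq ha hb)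
  let f : W.Point →+ Rk.G a b := (AddMonoidHom.mk' (vcFun h) (vc_add h (by
    rw [map_c₄]
    exact (map_ne_zero j).2 hc))).comp (ptMap j rfl)
  exact Module.Finite.of_injective f.toIntLinearMap ((injective_iff_map_eq_zero _).2 fun P k =>
    by_contra fun n => (vcFun_spec h (ptMap_ne (j := j) rfl n)).1 k)

theorem roots (K : Type) [Field K] [NumberField K] : ∃ (F : Type) (_ : Field F)
    (_ : NumberField F) (_ : K →+* F) (x y z : F), x + y + z = 4 ∧
    x * y + x * z + y * z = -160 ∧ x * y * z = 1264 ∧ y - x ≠ 0 ∧ z - x ≠ 0 ∧ y - x ≠ z - x := by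
  let P : Cubic K := ⟨1, -4, -160, -1264⟩
  let F := P.toPoly.SplittingField
  have ha : P.a ≠ 0 := one_ne_zero
  obtain ⟨x, y, z, h⟩ := (Cubic.splits_iff_roots_eq_three (φ := algebraMap K F) ha).1
    (Polynomial.SplittingField.splits _)
  have : NumberField F := NumberField.of_module_finite K F
  have h1 := Cubic.b_eq_three_roots ha h
  have h2 := Cubic.c_eq_three_roots ha h
  have h3 := Cubic.d_eq_three_roots ha h
  simp only [P, map_neg, map_one, map_ofNat, one_mul] at h1 h2 h3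
  have e : ((y - x) * (z - x) * (y - z)) ^ 2 = -(2 ^ 8 * 11 ^ 5) := by
    have : ((y - x) * (z - x) * (y - z)) ^ 2 = (x + y + z) ^ 2 * (x * y + x * z + y * z) ^ 2 -
        4 * (x * y + x * z + y * z) ^ 3 - 4 * (x + y + z) ^ 3 * (x * y * z) +
        18 * (x + y + z) * (x * y + x * z + y * z) * (x * y * z) - 27 * (x * y * z) ^ 2 := by ring
    rw [this, ← neg_inj.1 h1, ← h2, ← neg_inj.1 h3]
    norm_num
  have n : (y - x) * (z - x) * (y - z) ≠ 0 := fun k => by
    rw [k] at e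
    norm_num at e
  exact ⟨F, inferInstance, this, algebraMap K F, x, y, z, (neg_inj.1 h1).symm, h2.symm,
    (neg_inj.1 h3).symm, left_ne_zero_of_mul (left_ne_zero_of_mul n),
    right_ne_zero_of_mul (left_ne_zero_of_mul n),
    fun k => right_ne_zero_of_mul n (by linear_combination k)⟩

theorem mw : Module.Finite ℤ (EK L).toAffine.Point := by
  classical
  obtain ⟨F, _, _, j, x, y, z, h1, h2, h3, n1, n2, n3⟩ := roots L
  refine fg_of j _ n1 n2 n3 rfl rfl (C := ⟨Units.mk0 2 two_ne_zero, -x, 0, 4⟩) ?_ ?_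
  · ext <;> simp [EK, Rk.cv, variableChange_def, map_ofNat]
    · linear_combination (-1 / 4) * h1
    · norm_num
    · linear_combination (1 / 16) * h2
    · linear_combination (-1 / 64) * h3
  · simp only [EK, c₄, b₂, b₄]
    norm_num

theorem mwd {d : ℤ} (hd : d ≠ 0) : Module.Finite ℤ (Wd d).toAffine.Point := by
  classical
  obtain ⟨F, _, _, j, x, y, z, h1, h2, h3, n1, n2, n3⟩ := roots ℚ
  have d0 : (d : F) ≠ 0 := Int.cast_ne_zero.2 hd
  refine fg_of j _ (mul_ne_zero d0 n1) (mul_ne_zero d0 n2) (mt (mul_left_cancel₀ d0) n3) rfl rfl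
    (C := ⟨1, -(d * x), 0, 0⟩) ?_ ?_
  · ext <;> simp [Wd, Rk.cv, variableChange_def]
    · linear_combination (-(d : F)) * h1
    · linear_combination (d : F) ^ 2 * h2
    · linear_combination (-(d : F) ^ 3) * h3
  · have : (Wd d).toAffine.c₄ = 7936 * d ^ 2 := by
      simp only [Wd, c₄, b₂, b₄]
      ring
    rw [this]
    exact mul_ne_zero (by norm_num) (pow_ne_zero _ (Int.cast_ne_zero.2 hd))

end Pool.Agent.Lib.MP_02f36d_nt.NP
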