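import Pool.Agent.Lib.MP_02f36d_nt.NP.Rep
import Pool.Agent.Lib.MP_02f36d_nt.NP.MW

/-! Ranks and numbers of places of a field and of the fixed field of the squares. -/

set_option autoImplicit false

open Module NumberField IsDedekindDomain Ideal
open scoped Pointwise

noncomputable section

namespace Pool.Agent.Lib.MP_02f36d_nt.NP

open QF

/-- The ideal generated by `11`. -/
abbrev p11 : Ideal ℤ := span {11}

instance : p11.IsMaximal :=
  have : Fact (Nat.Prime 11) := ⟨by norm_num⟩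
  Int.ideal_span_isMaximal_of_prime 11

theorem cnt (K : Type) [Field K] [NumberField K] :
    {v : HeightOneSpectrum (𝓞 K) | (11 : 𝓞 K) ∈ v.asIdeal}.ncard =
      Nat.card (primesOver p11 (𝓞 K)) := by
  have p0 : p11 ≠ ⊥ := by simp
  rw [Nat.card_coe_set_eq, ← Set.ncard_image_of_injective _ HeightOneSpectrum.asIdeal_injective]
  congr 1
  ext Q
  refine ⟨?_, fun h => ?_⟩
  · rintro ⟨v, hv, rfl⟩
    exact ⟨v.isPrime, ⟨IsMaximal.eq_of_le inferInstance (IsPrime.under ℤ v.asIdeal).ne_top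
      ((span_singleton_le_iff_mem _).2 (mem_comap.2 (by rwa [map_ofNat])))⟩⟩
  · have := h.2
    refine ⟨⟨Q, h.1, ne_bot_of_liesOver_of_ne_bot p0 Q⟩, ?_, rfl⟩
    have k := mem_comap.1 (h.2.over ▸ mem_span_singleton_self 11 : (11 : ℤ) ∈ Q.under ℤ)
    rwa [map_ofNat] at k

theorem par_pr {G : Type} [Group G] [Finite G] (N : Subgroup G) [N.Normal]
    (h1 : Odd (Nat.card N)) (h2 : IsPGroup 2 (G ⧸ N)) {A B : Type} [CommRing A] [CommRing B]
    [Algebra A B] [Algebra.IsIntegral A B] [FaithfulSMul A B] [MulSemiringAction G B]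
    (p : Ideal ℤ) [Finite (primesOver p B)]
    (s : ∀ g ∈ sqs G, ∀ m : A, g • algebraMap A B m = algebraMap A B m)
    (r : ∀ b : B, (∀ g ∈ sqs G, g • b = b) → ∃ m, algebraMap A B m = b) :
    Even (Nat.card (primesOver p B) + Nat.card (primesOver p A)) := by
  have : SMulCommClass (sqs G) A B := ⟨fun g m x => by
    rw [Algebra.smul_def, Algebra.smul_def, smul_mul']
    exact congrArg (· * _) (s g g.2 m)⟩
  have : Algebra.IsInvariant A B (sqs G) := ⟨fun b hb => r b fun g hg => hb ⟨g, hg⟩⟩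
  refine par_set N h1 h2 (fun P : primesOver p B =>
    (primesOver.mk p (P.1.under A) : primesOver p A)) (fun Q => ?_) fun P Q =>
      ⟨fun h => ?_, fun ⟨g, hg, h⟩ => Subtype.ext ?_⟩
  · obtain ⟨⟨P, a, b⟩⟩ := Q.1.nonempty_primesOver (S := B)
    exact ⟨⟨P, a, LiesOver.trans P Q.1 p⟩, Subtype.ext b.over.symm⟩
  · obtain ⟨g, hg⟩ := Algebra.IsInvariant.exists_smul_of_under_eq A B (sqs G) P.1 Q.1
      (congrArg Subtype.val h)
    exact ⟨g, g.2, Subtype.ext hg.symm⟩
  · rw [← h]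
    exact (under_smul A P.1 (⟨g, hg⟩ : sqs G)).symm

variable {M K : Type} [Field M] [NumberField M] [Field K] [NumberField K] [Algebra M K]
  {G : Subgroup (K ≃ₐ[ℚ] K)}

theorem fix [IsGalois ℚ M] (hM : ∀ τ : M ≃ₐ[ℚ] M, τ ^ 2 = 1) {g : G} (hg : g ∈ sqs G) (m : M) :
    g.1 (algebraMap M K m) = algebraMap M K m := by
  induction hg using Subgroup.closure_induction with
  | mem x hx =>
    obtain ⟨y, rfl⟩ := hx
    have := congrArg (fun τ : M ≃ₐ[ℚ] M => algebraMap M K (τ m)) (hM (y.1.restrictNormal M))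
    simpa [sq] using this
  | one => rfl
  | mul x y _ _ a b => rw [Subgroup.coe_mul, AlgEquiv.mul_apply, b, a]
  | inv x _ a => exact x.1.symm_apply_eq.2 a.symm

variable (N : Subgroup G) [N.Normal] (h1 : Odd (Nat.card N)) (h2 : IsPGroup 2 (G ⧸ N))
  (hf : ∀ g ∈ sqs G, ∀ m : M, g.1 (algebraMap M K m) = algebraMap M K m)
  (hr : ∀ x : K, (∀ g ∈ sqs G, g.1 x = x) → ∃ m, algebraMap M K m = x)

include h1 h2 hf hr

theorem par_rank [DecidableEq M] [DecidableEq K] :
    Even (finrank ℤ (EK K).toAffine.Point + finrank ℤ (EK M).toAffine.Point) := by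
  have := mw (L := K)
  have e : (EK M).toAffine.map (algebraMap M K) = (EK K).toAffine := by
    ext <;> simp [EK, map_ofNat]
  let ρ : G →* End ℤ (EK K).toAffine.Point :=
    { toFun := fun g => (rho g.1).toIntLinearMap
      map_one' := LinearMap.ext rho_one
      map_mul' := fun a b => LinearMap.ext (rho_mul a.1 b.1) }
  refine par N h1 h2 ρ (ptMap _ e).toIntLinearMap (ptMap_injective e) fun P => ⟨?_, fun h => ?_⟩
  · rintro ⟨Q, rfl⟩ g hg
    by_cases h0 : Q = 0
    · simp [h0]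
    have n := ptMap_ne e h0
    refine pt_ext (ptMap_ne (ek_map _) n) n ((xc_ptMap (ek_map _) _).trans ?_)
      ((yc_ptMap (ek_map _) _).trans ?_)
    · exact (xc_ptMap e Q).symm ▸ hf g hg _
    · exact (yc_ptMap e Q).symm ▸ hf g hg _
  · obtain ⟨x, hx⟩ := hr (xc P) fun g hg =>
      (xc_ptMap (ek_map _) P).symm.trans (congrArg xc (h g hg))
    obtain ⟨y, hy⟩ := hr (yc P) fun g hg =>
      (yc_ptMap (ek_map _) P).symm.trans (congrArg yc (h g hg))
    exact mem_range_ptMap e hx.symm hy.symm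

theorem par_inf : Even (Fintype.card (InfinitePlace K) + Fintype.card (InfinitePlace M)) := by
  let t : sqs G → K ≃ₐ[M] K := fun g => AlgEquiv.ofRingEquiv (f := g.1.1.toRingEquiv) (hf g g.2)
  have : IsGalois M K := IsGalois.of_fixedField_eq_bot M K (eq_bot_iff.2 fun x hx =>
    IntermediateField.mem_bot.2 (hr x fun g hg => hx ⟨t ⟨g, hg⟩, Subgroup.mem_top _⟩))
  rw [← Nat.card_eq_fintype_card, ← Nat.card_eq_fintype_card]
  refine par_set N h1 h2 (fun w : InfinitePlace K => w.comap (algebraMap M K))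
    InfinitePlace.comap_surjective fun x y => ?_
  rw [← InfinitePlace.mem_orbit_iff]
  refine ⟨fun ⟨τ, h⟩ => ?_, fun ⟨g, hg, h⟩ => ⟨t ⟨g, hg⟩, h⟩⟩
  have : τ.restrictScalars ℚ ∈ (sqs G).map G.subtype := by
    rw [← IntermediateField.fixingSubgroup_fixedField ((sqs G).map G.subtype)]
    intro z
    obtain ⟨m, hm⟩ := hr z fun g hg => z.2 ⟨g, g, hg, rfl⟩
    exact hm ▸ τ.commutes m
  obtain ⟨g, hg, e⟩ := this
  refine ⟨g, hg, ?_⟩
  change G.subtype g • x = y
  rw [e]
  exact h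

theorem par_fin : Even ({v : HeightOneSpectrum (𝓞 K) | (11 : 𝓞 K) ∈ v.asIdeal}.ncard +
    {v : HeightOneSpectrum (𝓞 M) | (11 : 𝓞 M) ∈ v.asIdeal}.ncard) := by
  rw [cnt, cnt]
  refine par_pr N h1 h2 p11 (fun g hg m => RingOfIntegers.ext (hf g hg m)) fun b hb => ?_
  obtain ⟨m, hm⟩ := hr b fun g hg => congrArg (fun z : 𝓞 K => (z : K)) (hb g hg)
  exact ⟨⟨m, (isIntegral_algebraMap_iff (algebraMap M K).injective).1 (hm ▸ b.2)⟩,
    RingOfIntegers.ext hm⟩

end Pool.Agent.Lib.MP_02f36d_nt.NP
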