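import Pool.Agent.Lib.MP_02f36d_nt.QF.All
import Pool.Agent.Lib.MP_02f36d_nt.NP.MW
import Pool.Agent.Lib.MP_02f36d_nt.X11.Rank
import Pool.Agent.Lib.MP_d6ddbd_nt.K11.All

/-! The twists of `X₀(11)` by integers with at most one root of the cubic modulo their primes. -/

set_option autoImplicit false

open Finset Module Pool.Agent.Stark
open Pool.Agent.Lib.MP_02f36d_nt.X11 (Wd)
open Pool.Agent.Lib.MP_d6ddbd_nt K11

noncomputable section

namespace Pool.Agent.Lib.MP_02f36d_nt.NP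

theorem sel_le {L : Type} [Field L] [NumberField L] {θ : L} (hθ : Cub θ) {d : ℤ} (hd : Fam d)
    (h : ∑ l ∈ d.natAbs.primeFactors, nr l ≤ 1) : selN θ d = 2 ∨ selN θ d = 1 := by
  classical
  obtain ⟨ϑ, C⟩ := Comp.ctx pr_thm hθ
  obtain ⟨h1, -, h2⟩ := lAll L θ hθ d hd
  have mem : ∀ {l : ℕ}, l.Prime → (l : ℤ) ∣ d → l ∈ d.natAbs.primeFactors := fun hl k =>
    Nat.mem_primeFactors.2 ⟨hl, Int.natCast_dvd.1 k, Int.natAbs_ne_zero.2 hd.sf.ne_zero⟩
  have key : ∀ 𝔭 : Pr L, (∀ α, Wc d ∅ α → Even (og 𝔭 α)) ∨ ∃ l : ℕ, l.Prime ∧ (l : ℤ) ∣ d ∧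
      nr l = 1 ∧ nm 𝔭 = l ^ 2 ∧ 𝔭 ∈ ab L l ∧ ∀ 𝔮 ∈ ab L l, 𝔮 = 𝔭 ∨ nm 𝔮 = l := fun 𝔭 => by
    obtain ⟨-, l, hl, m, -⟩ := C.pr 𝔭
    by_cases k : (l : ℤ) ∣ d
    swap
    · exact Or.inl fun α w => w.ev l hl k (notMem_empty l) 𝔭 m
    have n2 : l ≠ 2 := by
      rintro rfl
      have := hd.m4
      omega
    have n11 : l ≠ 11 := by
      rintro rfl
      exact hd.n11 k
    have le := (single_le_sum (fun _ _ => Nat.zero_le _) (mem hl k)).trans h
    obtain ⟨-, -, c0, c1, -, -⟩ := C.good l hl n2 n11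
    rcases Nat.le_one_iff_eq_zero_or_eq_one.1 le with e | e
    · obtain ⟨𝔮, a, b⟩ := c0 e
      refine Or.inl fun α w => ?_
      have := (C.nv l α hl w.ne).2 w.sq
      rw [a] at m this
      rw [sum_singleton, b, Nat.log_pow hl.one_lt, ← mem_singleton.1 m, Int.even_iff] at this
      rw [Int.even_iff]
      push_cast at this
      omega
    · obtain ⟨𝔮, 𝔯, a, b, c, f⟩ := c1 e
      rcases (b 𝔭).1 m with rfl | rfl
      · refine Or.inl fun α w => ?_
        have := (C.nv l α hl w.ne).2 w.sq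
        rw [show ab L l = {𝔭, 𝔯} from Finset.ext fun x => by simp [b], sum_pair a, c, f,
          Nat.log_pow hl.one_lt, Comp.lself hl, Int.even_iff] at this
        rw [Int.even_iff]
        push_cast at this
        omega
      · exact Or.inr ⟨l, hl, k, e, f, m, fun x hx => ((b x).1 hx).symm.imp id fun y : x = 𝔮 => y ▸ c⟩
  obtain ⟨𝔮, hq⟩ : ∃ 𝔮 : Pr L, ∀ 𝔭 ≠ 𝔮, ∀ α, Wc d ∅ α → Even (og 𝔭 α) := by
    by_cases k : ∀ 𝔭 : Pr L, ∀ α, Wc d ∅ α → Even (og 𝔭 α)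
    · exact ⟨C.two.choose, fun 𝔭 _ => k 𝔭⟩
    obtain ⟨𝔮, k⟩ := not_forall.1 k
    obtain ⟨l, a1, a2, a3, a4, a5, -⟩ := (key 𝔮).resolve_left k
    refine ⟨𝔮, fun 𝔭 n => (key 𝔭).resolve_right fun ⟨l', b1, b2, b3, _, _, b6⟩ => ?_⟩
    by_cases e : l = l'
    · subst e
      have := a4.symm.trans ((b6 𝔮 a5).resolve_left n.symm)
      nlinarith [a1.one_lt]
    · have := (sum_le_sum_of_subset (show ({l, l'} : Finset ℕ) ⊆ _ from
        insert_subset (mem a1 a2) (singleton_subset_iff.2 (mem b1 b2)))).trans h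
      rw [sum_pair e] at this
      omega
  let g : {c : SqCl L // ∃ α, SelC θ d α ∧ cl α = c} → ZMod 2 := fun c => og 𝔮 c.2.choose
  have hg : Function.Injective g := fun x y e => by
    obtain ⟨a1, a2⟩ := x.2.choose_spec
    obtain ⟨b1, b2⟩ := y.2.choose_spec
    have w := ((h2 ∅ (by simp)).1 _ _ ((h1 _).1 a1).1 ((h1 _).1 b1).1).1
    refine Subtype.ext (a2.symm.trans (((cl_eq_cl a1.1 b1.1).2
      (C.triv w.ne w.sq w.two fun 𝔭 => ?_)).trans b2))
    by_cases k : 𝔭 = 𝔮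
    · rw [k, og, ord_mul a1.1 b1.1, ← ZMod.intCast_eq_zero_iff_even, Int.cast_add]
      exact (congrArg (· + g y) e).trans (CharTwo.add_self_eq_zero _)
    · exact hq 𝔭 k _ w
  have := Finite.of_injective g hg
  have : Nonempty {c : SqCl L // ∃ α, SelC θ d α ∧ cl α = c} := ⟨⟨_, 1, Main.selC_one θ d, rfl⟩⟩
  have a : selN θ d ≤ 2 := (Nat.card_le_card_of_injective g hg).trans_eq (Nat.card_zmod 2)
  have b : 0 < selN θ d := Nat.card_pos
  omega

theorem good_small {c : ℤ} (hc : Fam c) (h : ∑ l ∈ c.natAbs.primeFactors, nr l ≤ 1) :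
    QF.Good c := by
  obtain ⟨L, _, _, θ, hθ⟩ := Final.exists_cub
  obtain ⟨m1, m2⟩ := mainAll L θ hθ c hc
  have c0 := hc.sf.ne_zero
  have j := jacobiSym.eq_one_or_neg_one (a := c) (b := 11) (by
    rw [Int.gcd_comm]
    exact (Nat.Prime.coprime_iff_not_dvd (p := 11) (by norm_num)).2
      fun e => hc.n11 (Int.natCast_dvd.2 e))
  rw [QF.jac hc.m4] at m1 m2
  refine ⟨mwd c0, ?_⟩
  rcases sel_le hθ hc h with k | k
  · obtain ⟨a, e⟩ := m1 k
    rw [X11.rank pr_thm hθ c0 k a]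
    rcases lt_or_gt_of_ne c0 with s | s
    · rw [Int.sign_eq_neg_one_of_neg s] at e
      rcases j with j | j <;> simp [j, s.not_gt] at e ⊢
    · rw [Int.sign_eq_one_of_pos s] at e
      rcases j with j | j <;> simp [j, s] at e ⊢
  · obtain ⟨a, e⟩ := m2 k
    have := (X11.fin_iff c0).2 a
    rw [Module.finrank_eq_zero_iff_isTorsion.2 (isAddTorsion_iff_isTorsion_int.1
      isAddTorsion_of_finite)]
    rcases lt_or_gt_of_ne c0 with s | s
    · rw [Int.sign_eq_neg_one_of_neg s] at e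
      rcases j with j | j <;> simp [j, s.not_gt] at e ⊢
    · rw [Int.sign_eq_one_of_pos s] at e
      rcases j with j | j <;> simp [j, s] at e ⊢

end Pool.Agent.Lib.MP_02f36d_nt.NP
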