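import Pool.Agent.Lib.MP_02f36d_nt.NP.Fld
import Pool.Agent.Lib.MP_02f36d_nt.NP.Small

/-! The parity of the rank of `X₀(11)` over fields with a group of automorphisms that has a normal
`2`-complement. -/

set_option autoImplicit false

open Finset Module NumberField IsDedekindDomain WeierstrassCurve Filter Topology
open Pool.Agent.Lib.MP_d6ddbd_nt

namespace Pool.Agent.Lib.MP_02f36d_nt.NP

open QF

theorem final (hA : KA.MainStmt) : ∃ Z : Set ℤ,
    Tendsto (fun X : ℕ => ({d ∈ Z | |d| ≤ X}.ncard : ℝ) / X) atTop (𝓝 0) ∧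
    (∀ d ∈ Z, d % 4 = 1 → ¬ 11 ∣ d → 2 ≤ ∑ l ∈ d.natAbs.primeFactors, K11.nr l) ∧
    ∀ (M K : Type) [Field M] [NumberField M] [DecidableEq M] [IsGalois ℚ M]
      [Field K] [NumberField K] [DecidableEq K] [Algebra M K]
      (G : Subgroup (K ≃ₐ[ℚ] K)) (N : Subgroup G) [N.Normal],
      Odd (Nat.card N) → IsPGroup 2 (G ⧸ N) → (∀ τ : M ≃ₐ[ℚ] M, τ ^ 2 = 1) →
      (∀ x : K, (∀ σ ∈ G, σ (σ x) = x) → x ∈ Set.range (algebraMap M K)) →
      (∀ d : ℤ, Squarefree d → d ≠ 1 → IsSquare (d : M) → d ∉ Z) →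
      Module.Finite ℤ (EK K).toAffine.Point ∧ finrank ℤ (EK M).toAffine.Point < finrank ℚ M ∧
      (∀ v : HeightOneSpectrum (𝓞 K),
        ¬ ((EK K).minimal (v.valuation K).valuationSubring).HasAdditiveReduction
          (v.valuation K).valuationSubring) ∧
      Even (finrank ℤ (EK K).toAffine.Point + {v : HeightOneSpectrum (𝓞 K) |
        ((EK K).minimal (v.valuation K).valuationSubring).HasSplitMultiplicativeReduction
          (v.valuation K).valuationSubring}.ncard + Fintype.card (InfinitePlace K)) := by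
  refine ⟨{d | Squarefree d ∧ ¬ Good d}, ?_, fun d hd h4 h11 => by_contra fun n =>
    hd.2 (good_small ⟨hd.1, h4, h11⟩ (by omega)),
    fun M K _ _ _ _ _ _ _ _ G N _ h1 h2 hM hr hZ => ?_⟩
  · simpa only [Set.mem_ofPred_eq, and_comm (b := |_| ≤ _)] using
      GQ.den_all fun d a b c => good_all hA a b c
  obtain ⟨-, a, -, b⟩ := main M hM fun c h1 h2 h3 => by_contra fun n => hZ c h1 h2 h3 ⟨h1, n⟩
  have hf : ∀ g ∈ sqs G, ∀ m : M, g.1 (algebraMap M K m) = algebraMap M K m :=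
    fun g hg => fix hM hg
  have hr' : ∀ x : K, (∀ g ∈ sqs G, g.1 x = x) → ∃ m, algebraMap M K m = x := fun x h =>
    hr x fun σ hσ => by simpa [sq] using h _ (sq_mem ⟨σ, hσ⟩)
  have c1 := par_rank N h1 h2 hf hr'
  have c2 := par_inf N h1 h2 hf hr'
  have c3 := par_fin N h1 h2 hf hr'
  refine ⟨mw, a, fun v => QF.not_add _ K, ?_⟩
  simp only [QF.split_iff, QF.lt_iff] at b ⊢
  rw [Nat.even_iff] at *
  omega

end Pool.Agent.Lib.MP_02f36d_nt.NP
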