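import Mathlib

/-! Rational representations of finite groups with a normal `2`-complement: the dimension is
congruent modulo two to the dimension of the vectors fixed by all squares. -/

set_option autoImplicit false

open Finset Module TensorProduct Matrix Representation

noncomputable section

namespace Pool.Agent.Lib.MP_02f36d_nt.NP

theorem ev3 {x y z : ℕ} (a : Even (x + y)) (b : Even (y + z)) : Even (x + z) := by
  rw [Nat.even_iff] at a b ⊢
  omega

section Mat

variable {n : Type} [Fintype n] [DecidableEq n]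

theorem tr_int (A : Matrix n n ℚ) {k : ℕ} (hk : k ≠ 0) (h : A ^ k = 1) :
    ∃ z : ℤ, A.trace = z := by
  rcases isEmpty_or_nonempty n with e | e
  · exact ⟨0, by simp [Matrix.trace]⟩
  let B := (algebraMap ℚ ℂ).mapMatrix A
  have hB : B ^ k = 1 := by rw [← map_pow, h, map_one]
  have h1 : IsIntegral ℤ (algebraMap ℚ ℂ A.trace) := by
    rw [show algebraMap ℚ ℂ A.trace = B.trace from AddMonoidHom.map_trace _ _,
      Matrix.trace_eq_sum_roots_charpoly]
    refine (integralClosure ℤ ℂ).multiset_sum_mem fun μ hμ => ?_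
    have h2 := spectrum.pow_mem_pow B k
      (Matrix.mem_spectrum_iff_isRoot_charpoly.2 (Polynomial.isRoot_of_mem_roots hμ))
    rw [hB, spectrum.one_eq] at h2
    exact IsIntegral.of_pow (Nat.pos_of_ne_zero hk) (by rw [h2]; exact isIntegral_one)
  obtain ⟨z, hz⟩ := IsIntegrallyClosed.isIntegral_iff.1
    ((isIntegral_algebraMap_iff (algebraMap ℚ ℂ).injective).1 h1)
  exact ⟨z, hz.symm⟩

theorem tr_inv {G : Type} [Group G] [Fintype G] (R : G →* Matrix n n ℚ) (g : G) :
    (R g⁻¹).trace = (R g).trace := by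
  let S := ∑ h, (R h)ᵀ * R h
  have h0 : S.det ≠ 0 := fun h => by
    obtain ⟨v, v0, hv⟩ := Matrix.exists_mulVec_eq_zero_iff.2 h
    have h1 : ∑ h, (R h *ᵥ v) ⬝ᵥ (R h *ᵥ v) = 0 := by
      have := congrArg (v ⬝ᵥ ·) hv
      simp only [S, Matrix.sum_mulVec, dotProduct_sum, dotProduct_zero] at this
      rw [← this]
      refine sum_congr rfl fun h _ => ?_
      rw [← Matrix.mulVec_mulVec, Matrix.dotProduct_mulVec v, Matrix.vecMul_transpose]
    have h2 := (sum_eq_zero_iff_of_nonneg fun h _ =>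
      sum_nonneg fun i _ => mul_self_nonneg ((R h *ᵥ v) i)).1 h1 1 (mem_univ _)
    rw [map_one, Matrix.one_mulVec] at h2
    exact v0 (dotProduct_self_eq_zero.1 h2)
  have h1 : (R g)ᵀ * S = S * R g⁻¹ := by
    simp only [S, mul_sum, sum_mul]
    refine Fintype.sum_equiv (Equiv.mulRight g) _ _ fun h => ?_
    rw [Equiv.coe_mulRight, mul_assoc, ← map_mul, mul_inv_cancel_right, map_mul,
      Matrix.transpose_mul, mul_assoc]
  have u := isUnit_iff_ne_zero.2 h0
  rw [← Matrix.trace_transpose (R g), ← Matrix.mul_nonsing_inv_cancel_right S (R g)ᵀ u, h1,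
    Matrix.trace_mul_cycle, Matrix.nonsing_inv_mul _ u, Matrix.one_mul]

end Mat

variable {V : Type} [AddCommGroup V] [Module ℚ V] [FiniteDimensional ℚ V]

theorem par_odd {N : Type} [Group N] [Finite N] (hN : Odd (Nat.card N))
    (ρ : Representation ℚ N V) : Even (finrank ℚ V + finrank ℚ ρ.invariants) := by
  classical
  have := Fintype.ofFinite N
  let b := Module.finBasis ℚ V
  let R : N →* Matrix _ _ ℚ := (LinearMap.toMatrixAlgEquiv b).toMonoidHom.comp ρ
  have e : ∀ g, ρ.character g = (R g).trace := fun g => LinearMap.trace_eq_matrix_trace ℚ b _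
  choose t ht using fun g => tr_int (R g) (k := Nat.card N) Nat.card_pos.ne'
    (by rw [← map_pow, pow_card_eq_one', map_one])
  have c0 : (Nat.card N : ℚ) ≠ 0 := Nat.cast_ne_zero.2 Nat.card_pos.ne'
  have := invertibleOfNonzero c0
  have h1 := ρ.card_inv_mul_sum_char_eq_finrank
  rw [inv_mul_eq_iff_eq_mul₀ c0] at h1
  simp only [e, ht] at h1
  have h2 : ∑ g, t g = Nat.card N * finrank ℚ ρ.invariants := by exact_mod_cast h1
  have h3 : t 1 = finrank ℚ V := by
    have := ρ.char_one
    rw [e, ht] at this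
    exact_mod_cast this
  have h4 : ∑ g ∈ univ.erase 1, (t g : ZMod 2) = 0 := by
    refine sum_involution (fun g _ => g⁻¹) (fun g _ => ?_) (fun g hg _ k => ?_)
      (fun g hg => by simpa using hg) fun g _ => inv_inv g
    · have : t g⁻¹ = t g := by
        have := tr_inv R g
        rw [ht, ht] at this
        exact_mod_cast this
      rw [this, CharTwo.add_self_eq_zero]
    · refine (mem_erase.1 hg).1 (orderOf_eq_one_iff.1 (Nat.eq_one_of_dvd_coprimes
        (Nat.coprime_two_left.2 hN) (orderOf_dvd_of_pow_eq_one ?_) (orderOf_dvd_natCard g)))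
      rw [sq]
      nth_rw 1 [← k]
      exact inv_mul_cancel g
  have h5 := congrArg (Int.cast : ℤ → ZMod 2) h2
  rw [← add_sum_erase _ _ (mem_univ 1), h3] at h5
  push_cast at h5
  rw [h4, add_zero, (ZMod.natCast_eq_one_iff_odd).2 hN, one_mul] at h5
  rw [← ZMod.natCast_eq_zero_iff_even, Nat.cast_add, h5, CharTwo.add_self_eq_zero]

theorem par_inv (f : End ℚ V) (h : f * f = 1) (hd : LinearMap.det f = 1) :
    Even (finrank ℚ V + finrank ℚ (LinearMap.ker (f - 1))) := by
  have k : ∀ x, f (f x) = x := fun x => LinearMap.congr_fun h x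
  have m : ∀ x, x ∈ LinearMap.ker (f - 1) ↔ f x = x := fun x => by
    rw [LinearMap.mem_ker, LinearMap.sub_apply, sub_eq_zero]; rfl
  generalize LinearMap.ker (f - 1) = W at m
  have he : W ≤ W.comap f := fun x hx => (m _).2 (congrArg f ((m _).1 hx))
  have h1 : f.restrict he = LinearMap.id := LinearMap.ext fun x => Subtype.ext ((m _).1 x.2)
  have h2 : W.mapQ W f he = (-1 : ℚ) • LinearMap.id := by
    ext x
    simp only [LinearMap.comp_apply, Submodule.mkQ_apply, Submodule.mapQ_apply,
      LinearMap.smul_apply, LinearMap.id_apply, neg_smul, one_smul,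
      ← Submodule.Quotient.mk_neg]
    rw [Submodule.Quotient.eq, m, sub_neg_eq_add, map_add, k, add_comm]
  rw [LinearMap.det_eq_det_mul_det W f he, h1, h2, LinearMap.det_smul, LinearMap.det_id,
    LinearMap.det_id, one_mul, mul_one, neg_one_pow_eq_one_iff_even (by norm_num)] at hd
  rw [← Submodule.finrank_quotient_add_finrank W, add_assoc]
  exact hd.add ⟨_, rfl⟩

variable {G : Type} [Group G] [Finite G]

variable (G) in
/-- The subgroup generated by the squares. -/
def sqs : Subgroup G := Subgroup.closure (Set.range fun g : G => g ^ 2)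

omit [Finite G] in
theorem sq_mem (g : G) : g ^ 2 ∈ sqs G := Subgroup.subset_closure ⟨g, rfl⟩

instance : (sqs G).Normal := ⟨fun n hn g => by
  induction hn using Subgroup.closure_induction with
  | mem x hx =>
    obtain ⟨y, rfl⟩ := hx
    simpa [conj_pow] using sq_mem (g * y * g⁻¹)
  | one => simp
  | mul x y _ _ a b => simpa [mul_assoc] using mul_mem a b
  | inv x _ a => simpa [mul_assoc] using inv_mem a⟩

omit [FiniteDimensional ℚ V] in
theorem det_sqs (ρ : Representation ℚ G V) {z : G} (hz : z ∈ sqs G) : LinearMap.det (ρ z) = 1 := by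
  refine (Subgroup.closure_le (K := (LinearMap.det.comp ρ).toHomUnits.ker)).2 ?_ hz
    |> fun h => congrArg Units.val h
  rintro _ ⟨g, rfl⟩
  refine Units.ext ?_
  change LinearMap.det (ρ (g ^ 2)) = 1
  have : LinearMap.det (ρ g) ^ Nat.card G = 1 := by
    rw [← map_pow, ← map_pow, pow_card_eq_one', map_one, map_one]
  rw [map_pow, map_pow]
  rcases (pow_eq_one_iff_of_ne_zero Nat.card_pos.ne').1 this with h | h
  · rw [h, one_pow]
  · rw [h.1, neg_one_sq]

/-- The fixed vectors of a subgroup. -/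
abbrev fx (ρ : Representation ℚ G V) (S : Subgroup G) : Submodule ℚ V :=
  invariants (ρ.comp S.subtype)

omit [FiniteDimensional ℚ V] [Finite G] in
theorem mem_fx {ρ : Representation ℚ G V} {S : Subgroup G} {v : V} :
    v ∈ fx ρ S ↔ ∀ g ∈ S, ρ g v = v := ⟨fun h g hg => h ⟨g, hg⟩, fun h g => h g g.2⟩

omit [Finite G] in
theorem invol {b : G} {k : ℕ} (h0 : b ≠ 1) (h : b ^ 2 ^ k = 1) :
    ∃ j : ℕ, b ^ j ≠ 1 ∧ b ^ j * b ^ j = 1 := by
  induction k generalizing b with
  | zero => exact absurd (by simpa using h) h0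
  | succ k ih =>
    by_cases e : b ^ 2 = 1
    · exact ⟨1, by simpa using h0, by simpa [sq] using e⟩
    · obtain ⟨j, hj⟩ := ih e (by rwa [← pow_mul, ← pow_succ'])
      exact ⟨2 * j, by rwa [pow_mul]⟩

theorem step (S : Subgroup G) [S.Normal] (hp : IsPGroup 2 (G ⧸ S)) (h1 : S < sqs G) :
    ∃ z ∈ sqs G, z ∉ S ∧ z * z ∈ S ∧ (Subgroup.zpowers z ⊔ S).Normal := by
  have : Fact (Nat.Prime 2) := ⟨Nat.prime_two⟩
  let π := QuotientGroup.mk' S
  let T := (sqs G).map π
  have : T.Normal := Subgroup.Normal.map inferInstance π (QuotientGroup.mk'_surjective S)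
  let _ : MulAction (G ⧸ S) T := MulAction.compHom T (MulAut.conjNormal : G ⧸ S →* MulAut T)
  have hT : Nontrivial T := by
    obtain ⟨x, a, b⟩ := SetLike.exists_of_lt h1
    exact (Subgroup.nontrivial_iff_exists_ne_one T).2 ⟨π x, ⟨x, a, rfl⟩,
      fun e => b ((QuotientGroup.eq_one_iff x).1 e)⟩
  obtain ⟨n, n0, hn⟩ := (hp.to_subgroup T).nontrivial_iff_card.1 hT
  obtain ⟨b, hb, b0⟩ := hp.exists_fixed_point_of_prime_dvd_card_of_fixed_point T
    (hn ▸ dvd_pow_self _ n0.ne') (a := 1) fun g => map_one (MulAut.conjNormal g)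
  obtain ⟨k, hk⟩ := hp.to_subgroup T b
  obtain ⟨j, j1, j2⟩ := invol b0.symm hk
  obtain ⟨z, z1, z2⟩ := (b ^ j).2
  have c : ∀ g, g * π z * g⁻¹ = π z := fun g => by
    rw [z2, Subgroup.coe_pow, ← conj_pow]
    exact congrArg (· ^ j) (congrArg Subtype.val (hb g))
  refine ⟨z, z1, fun e => j1 (Subtype.ext (z2.symm.trans ((QuotientGroup.eq_one_iff z).2 e))),
    (QuotientGroup.eq_one_iff _).1 ?_, ?_⟩
  · change π (z * z) = 1
    rw [map_mul, z2]
    exact congrArg Subtype.val j2
  · have : (Subgroup.zpowers (π z)).Normal := ⟨by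
      rintro _ ⟨i, rfl⟩ g
      exact ⟨i, by simp only [← conj_zpow, c]⟩⟩
    have e := this.comap π
    rwa [← MonoidHom.map_zpowers, Subgroup.comap_map_eq, QuotientGroup.ker_mk'] at e

theorem par_two (ρ : Representation ℚ G V) (S : Subgroup G) : S.Normal → S ≤ sqs G →
    (∀ g : G, ∃ k, g ^ 2 ^ k ∈ S) → Even (finrank ℚ (fx ρ S) + finrank ℚ (fx ρ (sqs G))) := by
  induction S using WellFoundedGT.induction with | ind S ih =>
  intro hS h1 h2
  rcases h1.eq_or_lt with rfl | h1
  · exact ⟨_, rfl⟩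
  obtain ⟨z, z1, z2, z3, z4⟩ := step S (fun g => by
    obtain ⟨g, rfl⟩ := QuotientGroup.mk_surjective g
    exact (h2 g).imp fun k hk => (QuotientGroup.eq_one_iff _).2 hk) h1
  have a := ih (Subgroup.zpowers z ⊔ S) (lt_of_le_of_ne le_sup_right fun e =>
    z2 (e ▸ Subgroup.mem_sup_left (Subgroup.mem_zpowers z))) z4
    (sup_le (Subgroup.zpowers_le_of_mem z1) h1.le)
    fun g => (h2 g).imp fun k hk => Subgroup.mem_sup_right hk
  have b := par_inv (ρ.toInvariants S z) (by
    rw [← map_mul]
    exact LinearMap.ext fun x => Subtype.ext (x.2 ⟨_, z3⟩)) (det_sqs _ z1)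
  have c : (LinearMap.ker (ρ.toInvariants S z - 1)).map (fx ρ S).subtype =
      fx ρ (Subgroup.zpowers z ⊔ S) := by
    ext v
    constructor
    · rintro ⟨x, hx, rfl⟩
      have k : ρ z x = x := congrArg Subtype.val (sub_eq_zero.1 (LinearMap.mem_ker.1 hx))
      let U : Subgroup G :=
        { carrier := {g | ρ g x = x}
          mul_mem' := fun {a b} (ha : ρ a x = x) (hb : ρ b x = x) =>
            show ρ (a * b) x = x by rw [map_mul, End.mul_apply, hb, ha]
          one_mem' := show ρ 1 x = x by rw [map_one, End.one_apply]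
          inv_mem' := fun {a} (ha : ρ a x = x) => show ρ a⁻¹ x = x by
            nth_rw 1 [← ha]
            rw [← End.mul_apply, ← map_mul, inv_mul_cancel, map_one, End.one_apply] }
      exact mem_fx.2 (sup_le (Subgroup.zpowers_le_of_mem (H := U) k) (mem_fx.1 x.2))
    · intro hv
      refine ⟨⟨v, mem_fx.2 fun g hg => mem_fx.1 hv g (Subgroup.mem_sup_right hg)⟩,
        LinearMap.mem_ker.2 (sub_eq_zero.2 (Subtype.ext ?_)), rfl⟩
      exact mem_fx.1 hv z (Subgroup.mem_sup_left (Subgroup.mem_zpowers z))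
  rw [← c, Submodule.finrank_map_subtype_eq] at a
  exact ev3 b a

theorem par_rep (N : Subgroup G) [N.Normal] (h1 : Odd (Nat.card N)) (h2 : IsPGroup 2 (G ⧸ N))
    (ρ : Representation ℚ G V) : Even (finrank ℚ V + finrank ℚ (fx ρ (sqs G))) := by
  have a := par_odd h1 (ρ.comp N.subtype)
  have b := par_two ρ N inferInstance (fun g hg => by
    obtain ⟨k, hk⟩ := h1
    have e : g ^ Nat.card N = 1 := congrArg Subtype.val (pow_card_eq_one' (x := (⟨g, hg⟩ : N)))
    have := sq_mem (g ^ (k + 1))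
    rwa [← pow_mul, show (k + 1) * 2 = Nat.card N + 1 by omega, pow_succ, e, one_mul] at this)
    fun g => (h2 g).imp fun k hk => (QuotientGroup.eq_one_iff _).1 hk
  exact ev3 a b

/-- The form for finitely generated abelian groups. -/
theorem par (N : Subgroup G) [N.Normal] (h1 : Odd (Nat.card N)) (h2 : IsPGroup 2 (G ⧸ N))
    {A B : Type} [AddCommGroup A] [AddCommGroup B] [Module.Finite ℤ A] (ρ : G →* End ℤ A)
    (f : B →ₗ[ℤ] A) (inj : Function.Injective f)
    (rg : ∀ a, (∃ b, f b = a) ↔ ∀ g ∈ sqs G, ρ g a = a) : Even (finrank ℤ A + finrank ℤ B) := by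
  classical
  have k : ∀ (M : Type) [AddCommGroup M], finrank ℚ (ℚ ⊗[ℤ] M) = finrank ℤ M := fun M _ =>
    (TensorProduct.isBaseChange ℤ M ℚ).finrank_eq
  let σ : Representation ℚ G (ℚ ⊗[ℤ] A) := (End.baseChangeHom ℤ ℚ A).toMonoidHom.comp ρ
  have s : ∀ g q a, σ g (q ⊗ₜ a) = q ⊗ₜ ρ g a := fun _ _ _ => rfl
  have i : Function.Injective (f.baseChange ℚ) :=
    Module.Flat.lTensor_preserves_injective_linearMap f inj
  have e : LinearMap.range (f.baseChange ℚ) = fx σ (sqs G) := by
    refine le_antisymm ?_ fun v hv => ?_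
    · rintro _ ⟨x, rfl⟩
      induction x with
      | zero => simp
      | tmul q b =>
        exact mem_fx.2 fun g hg => by rw [LinearMap.baseChange_tmul, s, (rg _).1 ⟨b, rfl⟩ g hg]
      | add x y a b => rw [map_add]; exact add_mem a b
    · have := Fintype.ofFinite (sqs G)
      have m : ∀ v, ∑ g : sqs G, σ g v ∈ LinearMap.range (f.baseChange ℚ) := fun v => by
        induction v with
        | zero => simp
        | tmul q a =>
          obtain ⟨b, hb⟩ := (rg (∑ g : sqs G, ρ g a)).2 fun t ht => by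
            rw [map_sum]
            exact Fintype.sum_equiv (Equiv.mulLeft (⟨t, ht⟩ : sqs G)) _ _ fun g => by
              simp
          exact ⟨q ⊗ₜ b, by simp only [LinearMap.baseChange_tmul, hb, s, tmul_sum]⟩
        | add x y a b => simpa only [map_add, sum_add_distrib] using add_mem a b
      have := Submodule.smul_mem _ (Fintype.card (sqs G) : ℚ)⁻¹ (m v)
      rwa [sum_congr rfl fun (g : sqs G) _ => mem_fx.1 hv g g.2, sum_const, card_univ,
        ← Nat.cast_smul_eq_nsmul ℚ, inv_smul_smul₀ (Nat.cast_ne_zero.2 Fintype.card_ne_zero)] at this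
  have := par_rep N h1 h2 σ
  rwa [← e, LinearMap.finrank_range_of_inj i, k, k] at this

/-- The form for finite sets. -/
theorem par_set (N : Subgroup G) [N.Normal] (h1 : Odd (Nat.card N)) (h2 : IsPGroup 2 (G ⧸ N))
    {X Y : Type} [Finite X] [MulAction G X] (π : X → Y) (hs : Function.Surjective π)
    (h : ∀ x y, π x = π y ↔ ∃ g ∈ sqs G, g • x = y) : Even (Nat.card X + Nat.card Y) := by
  have := Finite.of_surjective π hs
  have := Fintype.ofFinite X
  have := Fintype.ofFinite Y
  let ρ : G →* End ℤ (X → ℤ) :=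
    { toFun := fun g => LinearMap.funLeft ℤ ℤ (g⁻¹ • ·)
      map_one' := by ext; simp
      map_mul' := fun a b => by ext; simp [mul_smul] }
  have := par N h1 h2 ρ (LinearMap.funLeft ℤ ℤ π)
    (LinearMap.funLeft_injective_of_surjective ℤ ℤ π hs) fun a => ⟨?_, fun k => ?_⟩
  · simpa using this
  · rintro ⟨b, rfl⟩ g hg
    exact funext fun x => congrArg b ((h _ _).2 ⟨g, hg, smul_inv_smul g x⟩)
  · refine ⟨a ∘ Function.surjInv hs, funext fun x => ?_⟩
    obtain ⟨g, hg, e⟩ := (h _ _).1 (Function.surjInv_eq hs (π x))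
    have := congrFun (k g hg) x
    change a (g⁻¹ • x) = _ at this
    rw [← this, ← e, inv_smul_smul, e]
    rfl

end Pool.Agent.Lib.MP_02f36d_nt.NP
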