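import Pool.Agent.Lib.MP_02f36d_nt.NP.TwPt
import Pool.Agent.Lib.MP_02f36d_nt.QF.Cnt

/-! The primes over `11` of odd residue degree. -/

set_option autoImplicit false

open Module NumberField IsDedekindDomain Ideal MulAction QuadraticAlgebra
open scoped Pointwise

noncomputable section

namespace Pool.Agent.Lib.MP_02f36d_nt.NP

open QF

/-- The primes over `11`. -/
def Pr11 (B : Type) [CommRing B] : Set (Ideal B) := primesOver p11 B

theorem mem_pr {B : Type} [CommRing B] {P : Ideal B} : P ∈ Pr11 B ↔ P.IsPrime ∧ (11 : B) ∈ P := by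
  refine and_congr_right fun h => ⟨fun k => ?_, fun k => ⟨IsMaximal.eq_of_le inferInstance
    (IsPrime.under ℤ P).ne_top ((span_singleton_le_iff_mem _).2 (mem_comap.2 (by
      rwa [map_ofNat])))⟩⟩
  have k := mem_comap.1 (k.over ▸ mem_span_singleton_self 11 : (11 : ℤ) ∈ P.under ℤ)
  rwa [map_ofNat] at k

theorem int_mem {B : Type} [CommRing B] {P : Ideal B} (h : P ∈ Pr11 B) (n : ℤ) :
    (n : B) ∈ P ↔ (11 : ℤ) ∣ n := by
  rw [← mem_span_singleton, show span {11} = p11 from rfl, h.2.over]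
  rfl

theorem fin_pr (B : Type) [CommRing B] [Module.Finite ℤ B] : (Pr11 B).Finite :=
  Algebra.QuasiFinite.finite_primesOver p11

theorem max_pr {B : Type} [CommRing B] [Module.Finite ℤ B] {P : Ideal B} (h : P ∈ Pr11 B) :
    P.IsMaximal :=
  have := h.1
  have := h.2
  .of_liesOver_isMaximal P p11

/-- The ring with a square root of `-1` adjoined. -/
abbrev GI (A : Type) [CommRing A] : Type := QuadraticAlgebra A (-1) 0

instance giAct (G A : Type) [Group G] [CommRing A] [MulSemiringAction G A] :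
    MulSemiringAction G (GI A) where
  smul_one g := by ext <;> simp
  smul_mul g x y := by ext <;> simp [smul_add, smul_mul']

theorem gi_fin (A : Type) [CommRing A] [Module.Finite ℤ A] :
    @Module.Finite ℤ (GI A) _ _ (AddCommGroup.toIntModule _) :=
  Module.Finite.of_surjective
    (AddMonoidHom.mk' (fun z : A × A => (⟨z.1, z.2⟩ : GI A)) fun _ _ => rfl).toIntLinearMap
    fun z => ⟨(z.re, z.im), rfl⟩

theorem gi_mem {A : Type} [CommRing A] {Q : Ideal (GI A)} {z : GI A}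
    (a : algebraMap A _ z.re ∈ Q) (b : algebraMap A _ z.im ∈ Q) : z ∈ Q := by
  convert Q.add_mem a (Q.mul_mem_right ω b) using 1
  ext <;> simp

theorem gi_norm {A : Type} [CommRing A] {Q : Ideal (GI A)} {z : GI A} (h : z ∈ Q) :
    algebraMap A _ (z.re ^ 2 + z.im ^ 2) ∈ Q := by
  convert Q.mul_mem_right (star z) h using 1
  ext <;> simp [sq]
  ring

theorem gi_uniq {A : Type} [CommRing A] {Q : Ideal (GI A)} (hm : (Q.under A).IsMaximal)
    (hs : ¬ IsSquare (-1 : A ⧸ Q.under A)) (z : GI A) :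
    z ∈ Q ↔ z.re ∈ Q.under A ∧ z.im ∈ Q.under A := by
  refine ⟨fun h => ?_, fun h => gi_mem h.1 h.2⟩
  have e : z.re ^ 2 + z.im ^ 2 ∈ Q.under A := gi_norm h
  generalize Q.under A = P at *
  let _ := Quotient.field P
  have b : z.im ∈ P := by
    by_contra n
    rw [← Quotient.eq_zero_iff_mem] at n e
    rw [map_add, map_pow, map_pow] at e
    refine hs ⟨Ideal.Quotient.mk P z.re / Ideal.Quotient.mk P z.im, ?_⟩
    field_simp
    linear_combination -e
  refine ⟨hm.isPrime.mem_of_pow_mem 2 ?_, b⟩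
  simpa using P.sub_mem e (P.pow_mem_of_mem b 2 two_pos)

theorem gi_par (A : Type) [CommRing A] [Module.Finite ℤ A] :
    Even (Nat.card (Pr11 (GI A)) + {P ∈ Pr11 A | ¬ IsSquare (-1 : A ⧸ P)}.ncard) := by
  classical
  have := gi_fin A
  have := (fin_pr (GI A)).fintype
  let s : GI A →+* GI A := starRingEnd _
  let f : Function.End (Pr11 (GI A)) := fun Q => ⟨Q.1.comap s, mem_pr.2
    ⟨have := Q.2.1; comap_isPrime _ _, mem_comap.2 (by rw [map_ofNat]; exact (mem_pr.1 Q.2).2)⟩⟩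
  have h := Equiv.Perm.card_fixedPoints_modEq (f := f) (p := 2) (n := 1)
    (funext fun Q => Subtype.ext (Ideal.ext fun z => by
      change star (star z) ∈ Q.1 ↔ z ∈ Q.1
      rw [star_star]))
  have u : ∀ Q : Pr11 (GI A), Q.1.under A ∈ Pr11 A := fun Q => mem_pr.2
    ⟨have := Q.2.1; IsPrime.under A _, mem_comap.2 (by rw [map_ofNat]; exact (mem_pr.1 Q.2).2)⟩
  have k : ∀ Q : Pr11 (GI A), Q ∈ f.fixedPoints ↔ ¬ IsSquare (-1 : A ⧸ Q.1.under A) := fun Q => by
    refine ⟨fun h ⟨x, hx⟩ => ?_, fun h => Subtype.ext (Ideal.ext fun z => ?_)⟩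
    · obtain ⟨x, rfl⟩ := Quotient.mk_surjective x
      have e : ∀ z, star z ∈ Q.1 ↔ z ∈ Q.1 := fun z => by
        rw [← congrArg Subtype.val h, congrArg Subtype.val h]
        exact SetLike.ext_iff.1 (congrArg Subtype.val h) z
      have m : algebraMap A (GI A) (x * x + 1) ∈ Q.1 := by
        rw [← mem_comap, ← Quotient.eq_zero_iff_mem, map_add, map_mul]
        exact add_eq_zero_iff_eq_neg.2 hx.symm
      have m1 : (⟨x, 1⟩ : GI A) ∈ Q.1 := by
        have : (⟨x, 1⟩ : GI A) * star ⟨x, 1⟩ ∈ Q.1 := by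
          convert m using 1
          ext <;> simp
        exact (Q.2.1.mem_or_mem this).elim id (e _).1
      have m2 : ((4 : ℤ) : GI A) ∈ Q.1 := by
        convert Q.1.mul_mem_right ⟨0, -2⟩ (Q.1.sub_mem m1 ((e _).2 m1)) using 1
        ext <;> simp
        norm_num
      exact absurd ((int_mem Q.2 4).1 m2) (by norm_num)
    · change star z ∈ Q.1 ↔ z ∈ Q.1
      rw [gi_uniq (max_pr (u Q)) h, gi_uniq (max_pr (u Q)) h]
      simp
  have e : Fintype.card f.fixedPoints = {P ∈ Pr11 A | ¬ IsSquare (-1 : A ⧸ P)}.ncard := by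
    rw [← Nat.card_eq_fintype_card, Nat.card_coe_set_eq]
    refine Set.ncard_congr (fun Q _ => Q.1.under A) (fun Q h => ⟨u Q, (k Q).1 h⟩)
      (fun Q R a b c => Subtype.ext (Ideal.ext fun z => ?_)) fun P hP => ?_
    · rw [gi_uniq (max_pr (u Q)) ((k Q).1 a), gi_uniq (max_pr (u R)) ((k R).1 b), c]
    · have := hP.1.1
      have : FaithfulSMul A (GI A) :=
        (faithfulSMul_iff_algebraMap_injective _ _).2 QuadraticAlgebra.algebraMap_injective
      obtain ⟨⟨Q, a, b⟩⟩ := P.nonempty_primesOver (S := GI A)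
      have c : Q ∈ Pr11 (GI A) := mem_pr.2 ⟨a, by
        rw [← map_ofNat (algebraMap A (GI A))]
        exact mem_comap.1 (show 11 ∈ Q.under A from b.over ▸ (mem_pr.1 hP.1).2)⟩
      exact ⟨⟨Q, c⟩, (k _).2 (b.over ▸ hP.2), b.over.symm⟩
  rw [← e, Nat.card_eq_fintype_card, Nat.even_iff]
  unfold Nat.ModEq at h
  omega

theorem gi_tr {G : Type} [Group G] [Finite G] (N : Subgroup G) [N.Normal]
    (h1 : Odd (Nat.card N)) (h2 : IsPGroup 2 (G ⧸ N)) {A B : Type} [CommRing A] [CommRing B]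
    [Module.Finite ℤ B] [MulSemiringAction G B] (j : A →+* B) (inj : Function.Injective j)
    (s : ∀ g ∈ sqs G, ∀ m : A, g • j m = j m)
    (r : ∀ b : B, (∀ g ∈ sqs G, g • b = b) → ∃ m, j m = b) :
    Even (Nat.card (Pr11 (GI B)) + Nat.card (Pr11 (GI A))) := by
  have := gi_fin B
  let J : GI A →+* GI B :=
    { toFun := fun z => ⟨j z.re, j z.im⟩
      map_one' := by ext <;> simp
      map_mul' := fun _ _ => by ext <;> simp
      map_zero' := by ext <;> simp
      map_add' := fun _ _ => by ext <;> simp }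
  let _ := J.toAlgebra
  have : FaithfulSMul (GI A) (GI B) := (faithfulSMul_iff_algebraMap_injective _ _).2
    fun x y h => QuadraticAlgebra.ext (inj (congrArg re h)) (inj (congrArg im h))
  have i : ∀ (R S : Type) [CommRing R] [CommRing S] [Algebra R S] [Module.Finite ℤ S],
    Algebra.IsIntegral R S := fun R S _ _ _ _ => Algebra.IsIntegral.tower_top ℤ
  have := i (GI A) (GI B)
  exact @par_pr G _ _ N _ h1 h2 (GI A) (GI B) _ _ _ _ _ _ p11 (fin_pr (GI B))
    (fun g hg m => QuadraticAlgebra.ext (s g hg _) (s g hg _)) fun b hb => by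
      obtain ⟨x, hx⟩ := r b.re fun g hg => congrArg re (hb g hg)
      obtain ⟨y, hy⟩ := r b.im fun g hg => congrArg im (hb g hg)
      exact ⟨⟨x, y⟩, QuadraticAlgebra.ext hx hy⟩

theorem two_sq : ∀ a b : ZMod 11, a ^ 2 + b ^ 2 = 0 → a = 0 ∧ b = 0 := by decide

theorem pm_sq : ∀ x : ZMod 11, ∃ a b : ZMod 11, x = a ^ 2 - b ^ 2 ∧ a * b = 0 := by decide

theorem card_gi (K : Type) [Field K] [NumberField K] [IsGalois ℚ K] :
    ∃ D : Subgroup (K ≃ₐ[ℚ] K), Nat.card (Pr11 (GI (𝓞 K))) = D.index ∧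
    ∀ (χ : (K ≃ₐ[ℚ] K) →* ℤˣ) (c : ℤ) (s : K), Squarefree c → s ^ 2 = c →
      (∀ σ : K ≃ₐ[ℚ] K, σ s = (χ σ : ℤ) * s) → ((∀ σ ∈ D, χ σ = 1) ↔ ¬ (11 : ℤ) ∣ c) := by
  have := gi_fin (𝓞 K)
  have ne : ∀ (B : Type) [CommRing B] [Module.Finite ℤ B] [CharZero B], (Pr11 B).Nonempty :=
    fun B _ _ _ => (p11.nonempty_primesOver (S := B)).elim fun P => ⟨P.1, P.2⟩
  obtain ⟨P, hl⟩ := ne (GI (𝓞 K))
  have hP := hl.1
  have inv : ∀ (H : Subgroup (K ≃ₐ[ℚ] K)), Algebra.IsInvariant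
      (FixedPoints.subring (GI (𝓞 K)) H) (GI (𝓞 K)) H := fun H => ⟨fun x hx => ⟨⟨x, hx⟩, rfl⟩⟩
  have ci : ∀ (n : ℤ), (n : GI (𝓞 K)) = algebraMap (𝓞 K) _ n := fun n => (map_intCast _ _).symm
  refine ⟨stabilizer _ P, ?_, fun χ c s hc hs hχ => ?_⟩
  · rw [index_stabilizer, Nat.card_coe_set_eq]
    congr 1
    refine Set.ext fun Q => ⟨fun hQ => ?_, ?_⟩
    · have := hQ.1
      have := inv ⊤
      have k : ∀ R ∈ Pr11 (GI (𝓞 K)), ∀ a b : ℤ,
          (⟨a, b⟩ : GI (𝓞 K)) ∈ R ↔ (11 : ℤ) ∣ a ∧ (11 : ℤ) ∣ b := fun R hR a b => by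
        refine ⟨fun h => ?_, fun h => gi_mem (ci a ▸ (int_mem hR a).2 h.1)
          (ci b ▸ (int_mem hR b).2 h.2)⟩
        have := (int_mem hR (a ^ 2 + b ^ 2)).1 (by
          rw [ci]
          simpa using gi_norm h)
        simp only [← ZMod.intCast_zmod_eq_zero_iff_dvd _ 11, show (11 : ℤ) = (11 : ℕ) from rfl]
          at this ⊢
        exact two_sq _ _ (by simpa using this)
      obtain ⟨g, hg⟩ := Algebra.IsInvariant.exists_smul_of_under_eq
        (FixedPoints.subring (GI (𝓞 K)) (⊤ : Subgroup (K ≃ₐ[ℚ] K))) (GI (𝓞 K))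
        (⊤ : Subgroup (K ≃ₐ[ℚ] K)) P Q (Ideal.ext fun x => by
          obtain ⟨a, ha⟩ := Algebra.IsInvariant.isInvariant (A := ℤ) (G := K ≃ₐ[ℚ] K) x.1.re
            fun σ => congrArg re (x.2 ⟨σ, trivial⟩)
          obtain ⟨b, hb⟩ := Algebra.IsInvariant.isInvariant (A := ℤ) (G := K ≃ₐ[ℚ] K) x.1.im
            fun σ => congrArg im (x.2 ⟨σ, trivial⟩)
          change x.1 ∈ P ↔ x.1 ∈ Q
          rw [show x.1 = ⟨a, b⟩ from QuadraticAlgebra.ext ha.symm hb.symm, k P hl, k Q hQ])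
      exact ⟨g, hg.symm⟩
    · rintro ⟨g, rfl⟩
      refine mem_pr.2 ⟨hP.smul g, ?_⟩
      have := smul_mem_pointwise_smul g _ _ (mem_pr.1 hl).2
      rwa [show g • (11 : GI (𝓞 K)) = 11 from map_ofNat (MulSemiringAction.toRingHom _ _ g) 11]
        at this
  have s0 : s ≠ 0 := fun e => (Int.cast_ne_zero (α := K)).2 hc.ne_zero (by rw [← hs, e]; simp)
  obtain ⟨t, rfl⟩ : ∃ t : 𝓞 K, (t : K) = s :=
    ⟨⟨s, IsIntegral.of_pow two_pos (hs ▸ isIntegral_algebraMap)⟩, rfl⟩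
  have ht : t ^ 2 = c := RingOfIntegers.ext hs
  have hσ : ∀ σ : K ≃ₐ[ℚ] K, σ • t = (χ σ : ℤ) * t := fun σ => RingOfIntegers.ext (hχ σ)
  refine ⟨fun h h11 => ?_, fun h11 σ hσ' => by_contra fun n => h11 ?_⟩
  · have key0 : ∀ y : 𝓞 K, (∀ σ : K ≃ₐ[ℚ] K, σ • y = (χ σ : ℤ) * y) →
        algebraMap _ _ y ∈ P := fun y hy => by
      obtain ⟨r, hr⟩ := (IsGalois.mem_range_algebraMap_iff_fixed (F := ℚ) ((y : K) / t)).2
        fun σ => by
          have e : σ (y : K) = (χ σ : ℤ) * y := congrArg (fun z : 𝓞 K => (z : K)) (hy σ)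
          rw [map_div₀, e, hχ, mul_div_mul_left _ _ (Int.cast_ne_zero.2 (χ σ).ne_zero)]
      obtain ⟨n, hn⟩ := Algebra.IsInvariant.isInvariant (A := ℤ) (G := K ≃ₐ[ℚ] K) (y ^ 2)
        fun σ => by
          rw [smul_pow', hy, mul_pow, sq, ← Int.cast_mul, ← Units.val_mul, Int.units_mul_self]
          simp
      have e : r ^ 2 * c = n := (algebraMap ℚ K).injective (by
        have : (n : K) = (y : K) ^ 2 := congrArg (fun z : 𝓞 K => (z : K)) hn
        rw [map_mul, map_pow, hr, map_intCast, map_intCast, this, ← hs]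
        field_simp)
      refine hP.mem_of_pow_mem 2 ?_
      rw [← map_pow, ← hn]
      exact ci n ▸ (int_mem hl n).2 (dvd_of_sq hc h11 e)
    have key : ∀ y : GI (𝓞 K), (∀ σ : K ≃ₐ[ℚ] K, σ • y = (χ σ : ℤ) * y) → y ∈ P := fun y hy =>
      gi_mem (key0 _ fun σ => by simpa using congrArg re (hy σ))
        (key0 _ fun σ => by simpa using congrArg im (hy σ))
    obtain ⟨τ, hτ⟩ : ∃ τ, χ τ = -1 := by
      by_contra! k
      exact hP.ne_top ((Ideal.eq_top_iff_one _).2 (key 1 fun σ => by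
        simp [(Int.units_eq_one_or (χ σ)).resolve_right (k σ)]))
    have := inv χ.ker
    obtain ⟨g, hg⟩ := Algebra.IsInvariant.exists_smul_of_under_eq
      (FixedPoints.subring (GI (𝓞 K)) χ.ker) (GI (𝓞 K)) χ.ker P (τ⁻¹ • P) (Ideal.ext fun x => by
        have f : ∀ σ, χ σ = 1 → σ • (x : GI (𝓞 K)) = x := fun σ h => x.2 ⟨σ, h⟩
        have f' : ∀ σ, χ σ = -1 → σ • (x : GI (𝓞 K)) = τ • (x : GI (𝓞 K)) := fun σ h => by
          rw [← inv_smul_eq_iff, smul_smul, f _ (by simp [h, hτ])]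
        have m := key (x - τ • x) fun σ => by
          rcases Int.units_eq_one_or (χ σ) with e | e
          · rw [smul_sub, smul_smul, f σ e, f' (σ * τ) (by simp [e, hτ]), e]
            simp
          · rw [smul_sub, smul_smul, f' σ e, f (σ * τ) (by simp [e, hτ]), e]
            simp
        change (x : GI (𝓞 K)) ∈ P ↔ (x : GI (𝓞 K)) ∈ τ⁻¹ • P
        rw [Ideal.mem_inv_pointwise_smul_iff]
        exact ⟨fun a => by simpa using P.sub_mem a m, fun a => by simpa using P.add_mem m a⟩)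
    have := h (τ * g) (by
      rw [mem_stabilizer_iff, mul_smul, ← eq_inv_smul_iff]
      exact hg.symm)
    rw [map_mul, hτ, show χ g = 1 from g.2] at this
    exact absurd this (by decide)
  · obtain ⟨a, b, h1, h2⟩ := pm_sq c
    obtain ⟨a, rfl⟩ := ZMod.intCast_surjective a
    obtain ⟨b, rfl⟩ := ZMod.intCast_surjective b
    obtain ⟨k, hk⟩ : (11 : ℤ) ∣ c - (a ^ 2 - b ^ 2) :=
      (ZMod.intCast_zmod_eq_zero_iff_dvd _ 11).1 (by push_cast; rw [h1, sub_self])
    obtain ⟨l, hl'⟩ : (11 : ℤ) ∣ a * b :=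
      (ZMod.intCast_zmod_eq_zero_iff_dvd _ 11).1 (by push_cast; exact h2)
    have hk' : (c : 𝓞 K) - (a ^ 2 - b ^ 2) = 11 * k := by
      exact_mod_cast congrArg (Int.cast : ℤ → 𝓞 K) hk
    have hl'' : (a : 𝓞 K) * b = 11 * l := by exact_mod_cast congrArg (Int.cast : ℤ → 𝓞 K) hl'
    have e : σ • t = -t := by simp [hσ, (Int.units_eq_one_or (χ σ)).resolve_left n]
    have ic : ∀ a : ℤ, σ • (a : 𝓞 K) = a := fun a =>
      map_intCast (MulSemiringAction.toRingHom _ _ σ) a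
    have k1 : ∀ a b : ℤ, (⟨t - a, b⟩ : GI (𝓞 K)) ∈ P → (11 : ℤ) ∣ c := fun a b hb => by
      have := Ideal.smul_mem_pointwise_smul σ _ _ hb
      rw [mem_stabilizer_iff.1 hσ'] at this
      have h1 : ((4 * c : ℤ) : GI (𝓞 K)) ∈ P := by
        convert P.mul_mem_left ⟨2 * t, 0⟩ (P.sub_mem hb this) using 1
        ext1 <;> simp [smul_sub, e, ic, ← ht]
        ring
      have := (int_mem hl _).1 h1
      omega
    have m : (⟨t - a, (-b : ℤ)⟩ : GI (𝓞 K)) * ⟨t - (-a : ℤ), b⟩ ∈ P := by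
      convert P.mul_mem_left ⟨k, -2 * l⟩ (mem_pr.1 hl).2 using 1
      ext1 <;> simp
      · linear_combination ht + hk'
      · linear_combination -2 * hl''
    exact (hP.mem_or_mem m).elim (k1 _ _) (k1 _ _)

end Pool.Agent.Lib.MP_02f36d_nt.NP
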