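import Pool.Agent.Lib.MP_02f36d_nt.NP.TwPt
import Pool.Agent.Lib.MP_02f36d_nt.QF.Red
import Pool.Agent.Lib.MP_02f36d_nt.T17.Root

/-! The root number of the quadratic twists of `X₀(11)` over a number field. -/

set_option autoImplicit false

open NumberField IsDedekindDomain WeierstrassCurve WithZero
open scoped Classical
open Pool.Agent.C17.Rt (vv int_le)
open Pool.Agent.T17 Pool.Agent.T17.Rt

noncomputable section

namespace Pool.Agent.Lib.MP_02f36d_nt.NP

section Dvr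

variable (R : Type) [CommRing R] [IsDomain R] [IsDiscreteValuationRing R]
variable (K : Type) [Field K] [Algebra R K] [IsFractionRing R K]

theorem min_of (W V : WeierstrassCurve K) (C₀ : VariableChange K) (h : C₀ • W = V)
    (iV : IsIntegral R V) (d0 : V.Δ ≠ 0)
    (hmin : ∀ u : K, 1 < vv R K u → 1 < vv R K (u ^ 12 * V.Δ) ∨ 1 < vv R K (u ^ 4 * V.c₄)) :
    ∃ u : K, vv R K u = 1 ∧ (W.minimal R).Δ = u ^ 12 * V.Δ ∧
      (W.minimal R).c₄ = u ^ 4 * V.c₄ ∧ (W.minimal R).c₆ = u ^ 6 * V.c₆ := by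
  obtain ⟨C, hC⟩ : ∃ C : VariableChange K, W.minimal R = C • V :=
    ⟨(W.exists_isMinimal R).choose * C₀⁻¹, by rw [← h, mul_smul, inv_smul_smul]; rfl⟩
  have hm : IsMinimal R (W.minimal R) := inferInstance
  generalize W.minimal R = M at hC hm ⊢
  have f1 : M.Δ = ((C.u⁻¹ : Kˣ) : K) ^ 12 * V.Δ := by rw [hC, variableChange_Δ]
  have f2 : M.c₄ = ((C.u⁻¹ : Kˣ) : K) ^ 4 * V.c₄ := by rw [hC, variableChange_c₄]
  refine ⟨(C.u⁻¹ : Kˣ), ?_, f1, f2, by rw [hC, variableChange_c₆]⟩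
  generalize ((C.u⁻¹ : Kˣ) : K) = u at f1 f2
  have hV : C⁻¹ • M = V := by rw [hC, inv_smul_smul]
  rw [← hV] at iV
  have h1 : vv R K (C⁻¹ • M).Δ ≤ vv R K M.Δ := by
    have := hm.val_Δ_maximal.le iV
    rw [one_smul, ← Subtype.coe_le_coe, valuation_Δ_aux_eq_of_isIntegral,
      valuation_Δ_aux_eq_of_isIntegral] at this
    exact this
  have h2 : 1 ≤ vv R K u := by
    rw [hV, f1, map_mul _ (u ^ 12), map_pow] at h1
    by_contra hlt
    exact absurd h1 (not_le.2 (mul_lt_of_lt_one_left (zero_lt_iff.2 ((map_ne_zero _).2 d0))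
      (pow_lt_one₀ zero_le (not_le.1 hlt) (by norm_num))))
  refine le_antisymm (not_lt.1 fun hlt => ?_) h2
  have g1 : vv R K M.Δ ≤ 1 :=
    integralModel_Δ_eq R M ▸ HeightOneSpectrum.valuation_le_one _ _
  have g2 : vv R K M.c₄ ≤ 1 :=
    integralModel_c₄_eq R M ▸ HeightOneSpectrum.valuation_le_one _ _
  rcases hmin u hlt with k | k
  · exact absurd (f1 ▸ g1) (not_le.2 k)
  · exact absurd (f2 ▸ g2) (not_le.2 k)

theorem spl_iff (M : WeierstrassCurve K) [hm : IsMinimal R M] {d : ℤ} {u : K}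
    (hu : vv R K u = 1) (h : vv R K 11 < 1) (a1 : vv R K M.Δ < 1) (a2 : vv R K M.c₄ = 1)
    (e2 : M.c₄ = u ^ 4 * (496 * d ^ 2)) (e3 : M.c₆ = u ^ 6 * (20008 * d ^ 3)) :
    M.HasSplitMultiplicativeReduction R ↔ IsSquare (d : IsLocalRing.ResidueField R) := by
  have c1 := integralModel_c₄_eq R M
  have c2 := integralModel_c₆_eq R M
  refine Iff.trans ⟨fun h => h.splitMultiplicativeReduction, fun h =>
    { toIsMinimal := hm
      badReduction := a1
      multiplicativeReduction := a2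
      splitMultiplicativeReduction := h }⟩ ?_
  rw [← c1] at a2
  generalize integralModel R M = I at *
  let φ := algebraMap R (IsLocalRing.ResidueField R)
  have d0 : (11 : IsLocalRing.ResidueField R) = 0 := by
    rw [← map_ofNat φ]
    rw [← map_ofNat (algebraMap R K)] at h
    exact (IsLocalRing.residue_eq_zero_iff _).2
      ((HeightOneSpectrum.valuation_lt_one_iff_mem _ _).1 h)
  have d1 : φ I.c₄ ≠ 0 := fun h => a2.not_lt ((HeightOneSpectrum.valuation_lt_one_iff_mem _ _).2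
    ((IsLocalRing.residue_eq_zero_iff _).1 h))
  obtain ⟨w, rfl⟩ : ∃ w : R, algebraMap R K w = u :=
    IsDiscreteValuationRing.exists_lift_of_le_one hu.le
  have d2 : I.c₄ = w ^ 4 * (496 * d ^ 2) := IsFractionRing.injective R K (by
    rw [c1, e2]; simp only [map_mul, map_pow, map_ofNat, map_intCast])
  have d3 : I.c₆ = w ^ 6 * (20008 * d ^ 3) := IsFractionRing.injective R K (by
    rw [c2, e3]; simp only [map_mul, map_pow, map_ofNat, map_intCast])
  have d4 : (I.a₁ * I.c₄) ^ 2 + 4 * I.c₄ * (54 * I.b₆ - 3 * I.b₂ * I.b₄ + I.a₂ * I.c₄) =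
      -(I.c₄ * I.c₆) := by
    simp only [c₄, c₆, b₂, b₄, b₆]
    ring
  simp only [Polynomial.map_sub, Polynomial.map_add, Polynomial.map_mul, Polynomial.map_pow,
    Polynomial.map_C, Polynomial.map_X]
  rw [quad_iff
    (fun h => one_ne_zero' (IsLocalRing.ResidueField R) (by linear_combination 6 * h - d0)) d1]
  have d5 := congrArg φ d4
  rw [map_add, map_pow, map_mul φ (4 * _), map_mul φ 4, map_ofNat] at d5
  have d6 : φ (-(I.c₄ * I.c₆)) = (φ w ^ 5 * d ^ 2) ^ 2 * d := by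
    rw [d2, d3]
    simp only [map_neg, map_mul, map_pow, map_ofNat, map_intCast]
    linear_combination -902179 * φ w ^ 10 * d ^ 5 * d0
  have d7 : (φ w ^ 5 * d ^ 2 : IsLocalRing.ResidueField R) ≠ 0 := by
    rw [d2] at d1
    simp only [map_mul, map_pow, map_ofNat, map_intCast, mul_ne_zero_iff] at d1
    exact mul_ne_zero (pow_ne_zero _ (ne_zero_pow (by norm_num) d1.1)) d1.2.2
  rw [d5, d6]
  generalize (φ w ^ 5 * d ^ 2 : IsLocalRing.ResidueField R) = s at d7
  refine ⟨fun ⟨t, ht⟩ => ⟨t / s, ?_⟩, fun ⟨t, ht⟩ => ⟨s * t, by rw [ht]; ring⟩⟩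
  field_simp
  linear_combination ht

end Dvr

variable {K : Type} [Field K] [NumberField K] {v : HeightOneSpectrum (𝓞 K)} {D : ℤ}

theorem mdlA (h4 : D % 4 = 1) (hv : (D : 𝓞 K) ∉ v.asIdeal) :
    ∃ u : K, v.valuation K u = 1 ∧ (mdl (WK D K) v).Δ = u ^ 12 * (-161051 * D ^ 6) ∧
      (mdl (WK D K) v).c₄ = u ^ 4 * (496 * D ^ 2) ∧
      (mdl (WK D K) v).c₆ = u ^ 6 * (20008 * D ^ 3) := by
  obtain ⟨k, hk⟩ : ∃ k : ℤ, D = 4 * k + 1 := ⟨D / 4, by omega⟩
  have hk' : (D : K) = 4 * k + 1 := by exact_mod_cast hk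
  have hd : (D : K) ≠ 0 := by exact_mod_cast (show D ≠ 0 by omega)
  let V : WeierstrassCurve K :=
    ⟨0, -D, 1, -10 * D ^ 2, -(1264 * k ^ 3 + 948 * k ^ 2 + 237 * k + 20)⟩
  have e1 : V.Δ = -161051 * D ^ 6 := by simp only [V, Δ, b₂, b₄, b₆, b₈, hk']; ring
  have e2 : V.c₄ = 496 * D ^ 2 := by simp only [V, c₄, b₂, b₄, hk']; ring
  have e3 : V.c₆ = 20008 * D ^ 3 := by simp only [V, c₆, b₂, b₄, b₆, hk']; ring
  have h1 := (eqv v).eq_one_iff_eq_one.2 ((val_int v D).2 hv)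
  obtain ⟨u, hu, h⟩ := min_of (v.valuation K).valuationSubring K (WK D K) V
    ⟨Units.mk0 2 two_ne_zero, 0, 0, 4⟩
    (by ext <;> simp [V, WK, variableChange_def, hk'] <;> ring)
    ⟨⟨0, -D, 1, -10 * D ^ 2, -(1264 * k ^ 3 + 948 * k ^ 2 + 237 * k + 20)⟩, by
      simp only [V, baseChange, WeierstrassCurve.map, map_zero, map_neg, map_mul, map_pow,
        map_ofNat, map_intCast, map_add, map_one]⟩
    (e1 ▸ mul_ne_zero (by norm_num) (pow_ne_zero _ hd)) fun u hu => by
      rw [e1, e2]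
      refine (QF.one_of (v.valuation K).valuationSubring K).imp (fun k => ?_) fun k => ?_ <;>
        simp only [map_mul, map_pow, h1, k, one_pow, mul_one] <;>
        exact one_lt_pow₀ hu (by norm_num)
  rw [e1, e2, e3] at h
  exact ⟨u, (eqv v).eq_one_iff_eq_one.1 hu, h⟩

theorem mdlB (h0 : D ≠ 0) (h2 : ((2 : ℤ) : 𝓞 K) ∉ v.asIdeal) (h11 : ((11 : ℤ) : 𝓞 K) ∉ v.asIdeal)
    {j e : ℕ} (he : e ≤ 1) (hn : v.valuation K D = exp (-(2 * j + e : ℕ) : ℤ)) :
    v.valuation K (mdl (WK D K) v).Δ = exp (-6 * e : ℤ) ∧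
      v.valuation K (mdl (WK D K) v).c₄ ≤ exp (-2 * e : ℤ) := by
  obtain ⟨π, hπ⟩ := v.valuation_exists_uniformizer K
  have p0 : π ≠ 0 := by
    rintro rfl
    rw [map_zero] at hπ
    exact exp_ne_zero hπ.symm
  obtain ⟨d, hd⟩ : ∃ d : K, d = D / π ^ (2 * j) := ⟨_, rfl⟩
  have d1 : v.valuation K d = exp (-e : ℤ) := by
    rw [hd, map_div₀, map_pow, hn, hπ, ← exp_nsmul, ← exp_sub]
    congr 1
    simp
  have a2 : v.valuation K 2 = 1 := by exact_mod_cast (val_int v 2).2 h2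
  have a11 : v.valuation K 11 = 1 := by exact_mod_cast (val_int v 11).2 h11
  let V : WeierstrassCurve K := ⟨0, -4 * d, 0, -160 * d ^ 2, -1264 * d ^ 3⟩
  have e1 : V.Δ = -(2 ^ 12 * 11 ^ 5 * d ^ 6) := by simp only [V, Δ, b₂, b₄, b₆, b₈]; ring
  have e2 : V.c₄ = 7936 * d ^ 2 := by simp only [V, c₄, b₂, b₄]; ring
  have v1 : v.valuation K V.Δ = exp (-6 * e : ℤ) := by
    rw [e1, Valuation.map_neg]
    simp only [map_mul, map_pow, a2, a11, d1, one_pow, one_mul, ← exp_nsmul]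
    congr 1
    simp
  let w : (v.valuation K).valuationSubring := ⟨d, d1.trans_le (by
    rw [← exp_zero, exp_le_exp]
    omega)⟩
  obtain ⟨u, hu, f1, f2, -⟩ := min_of (v.valuation K).valuationSubring K (WK D K) V
    ⟨Units.mk0 (π ^ j) (pow_ne_zero _ p0), 0, 0, 0⟩
    (by ext <;> simp [V, WK, variableChange_def, hd] <;> field_simp <;> ring)
    ⟨⟨0, -4 * w, 0, -160 * w ^ 2, -1264 * w ^ 3⟩, by
      simp only [V, baseChange, WeierstrassCurve.map, map_zero, map_neg, map_mul, map_pow,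
        map_ofNat]
      rfl⟩
    (fun h => exp_ne_zero (v1.symm.trans (by rw [h, map_zero]))) fun u hu => by
      rw [(eqv v).one_lt_iff_one_lt] at hu
      left
      rw [(eqv v).one_lt_iff_one_lt, map_mul, map_pow, v1]
      have h0 : v.valuation K u ≠ 0 := (zero_lt_one.trans hu).ne'
      rw [← exp_log h0, ← exp_zero, exp_lt_exp] at hu
      rw [← exp_log h0, ← exp_nsmul, ← exp_add, ← exp_zero, exp_lt_exp]
      simp only [nsmul_eq_mul]
      omega
  rw [(eqv v).eq_one_iff_eq_one] at hu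
  refine ⟨?_, ?_⟩
  · rw [mdl, f1, map_mul, map_pow, hu, v1, one_pow, one_mul]
  · rw [mdl, f2, e2]
    simp only [map_mul, map_pow, hu, d1, one_pow, one_mul, ← exp_nsmul]
    refine (mul_le_of_le_one_left' (by exact_mod_cast val_le v 7936)).trans (le_of_eq ?_)
    congr 1
    simp

/-- The character modulo four of the norm. -/
def psi (K : Type) [Field K] [NumberField K] : Ideal (𝓞 K) →* ℤ :=
  (ZMod.χ₄.toMonoidHom.comp (Nat.castRingHom (ZMod 4)).toMonoidHom).comp
    Ideal.absNorm.toMonoidHom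

theorem psi_eq (h2 : ((2 : ℤ) : 𝓞 K) ∉ v.asIdeal) : psi K v.asIdeal = chi v (-1) := by
  have : Finite (𝓞 K ⧸ v.asIdeal) := Ideal.finiteQuotientOfFreeOfNeBot _ v.ne_bot
  have := Fintype.ofFinite (𝓞 K ⧸ v.asIdeal)
  have := v.isMaximal
  let _ := Ideal.Quotient.field v.asIdeal
  have o := FiniteField.odd_card_of_char_ne_two (F := 𝓞 K ⧸ v.asIdeal) fun h => h2 (by
    rw [← Ideal.Quotient.eq_zero_iff_mem, map_intCast]
    exact_mod_cast h ▸ ringChar.Nat.cast_ringChar (R := 𝓞 K ⧸ v.asIdeal))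
  change ZMod.χ₄ (Nat.card (𝓞 K ⧸ v.asIdeal) : ℕ) = _
  rw [chi, Int.cast_neg, Int.cast_one, FiniteField.isSquare_neg_one_iff, Nat.card_eq_fintype_card]
  split_ifs with h
  · exact ZMod.χ₄_nat_one_mod_four (by omega)
  · exact ZMod.χ₄_nat_three_mod_four (by omega)

theorem loc (h4 : D % 4 = 1) (h11 : IsCoprime D 11) (v : HeightOneSpectrum (𝓞 K)) :
    ((D : 𝓞 K) ∉ v.asIdeal →
      ¬ (mdl (WK D K) v).HasAdditiveReduction (v.valuation K).valuationSubring) ∧
    locRoot (WK D K) v =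
      (if (11 : 𝓞 K) ∈ v.asIdeal ∧ IsSquare (D : 𝓞 K ⧸ v.asIdeal) then -1 else 1) *
        psi K (v.maxPowDividing (Ideal.span {(D : 𝓞 K)})) := by
  have h0 : D ≠ 0 := by omega
  have hn : v.valuation K D = _ := (v.valuation_of_algebraMap (K := K) D).trans
    (v.intValuation_if_neg (Int.cast_ne_zero.2 h0))
  rw [HeightOneSpectrum.maxPowDividing, map_pow]
  generalize (Associates.mk v.asIdeal).count (Associates.mk (Ideal.span {(D : 𝓞 K)})).factors = n
    at hn
  by_cases hv : (D : 𝓞 K) ∈ v.asIdeal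
  · refine ⟨fun h => absurd hv h, ?_⟩
    have h2 := not_mem (Int.isCoprime_two_right.2 (Int.odd_iff.2 (by omega))) hv
    have h3 := not_mem h11 hv
    rw [if_neg fun h => h3 (by exact_mod_cast h.1), one_mul, psi_eq h2]
    have c : chi v (-1) ^ 2 = 1 := by
      rw [chi]
      split_ifs <;> rfl
    obtain ⟨j, rfl | rfl⟩ := n.even_or_odd'
    · obtain ⟨a, -⟩ := mdlB h0 h2 h3 (j := j) zero_le_one hn
      have : ¬ vv (v.valuation K).valuationSubring K (mdl (WK D K) v).Δ < 1 := by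
        rw [(eqv v).lt_one_iff_lt_one, a]
        simp
      rw [locRoot, if_neg fun h => this h.badReduction, if_pos fun h => this h.badReduction,
        pow_mul, c, one_pow]
    · obtain ⟨a1, a2⟩ := mdlB h0 h2 h3 (j := j) le_rfl hn
      have a3 : (mdl (WK D K) v).HasAdditiveReduction (v.valuation K).valuationSubring :=
        { toIsMinimal := inferInstanceAs (IsMinimal _ (minimal _ _))
          badReduction := (eqv v).lt_one_iff_lt_one.2 (a1.trans_lt (by decide))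
          additiveReduction := (eqv v).lt_one_iff_lt_one.2 (a2.trans_lt (by decide)) }
      have a4 := not_lt.2 (pow_le_pow_left₀ zero_le a2 3)
      rw [locRoot,
        if_neg fun h => a3.not_hasMultiplicativeReduction _ h.toHasMultiplicativeReduction,
        if_neg (not_not.2 a3), a1, if_neg (by exact a4), log_exp, if_neg (by decide),
        if_neg (by decide), pow_succ, pow_mul, c, one_pow, one_mul]
  have h1 := (val_int v D).2 hv
  obtain rfl : n = 0 := by
    rw [h1, ← exp_zero, exp_inj] at hn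
    omega
  obtain ⟨u, hu, e1, e2, e3⟩ := mdlA h4 hv
  have a1 : v.valuation K (mdl (WK D K) v).Δ = v.valuation K 11 ^ 5 := by
    rw [e1, show (-161051 : K) = -11 ^ 5 by norm_num]
    simp [hu, h1]
  rw [pow_zero, mul_one]
  by_cases h : (11 : 𝓞 K) ∈ v.asIdeal
  · have h3 : v.valuation K 11 < 1 := (v.valuation_lt_one_iff_mem (K := K) 11).2 h
    have h5 : v.valuation K 496 = 1 := by
      exact_mod_cast (val_int v 496).2 (not_mem (a := 11) (Int.isCoprime_iff_gcd_eq_one.2 rfl)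
        (by exact_mod_cast h))
    have a2 : vv (v.valuation K).valuationSubring K (mdl (WK D K) v).c₄ = 1 := by
      rw [(eqv v).eq_one_iff_eq_one, e2]
      simp [hu, h1, h5]
    have k := spl_iff (v.valuation K).valuationSubring K (mdl (WK D K) v)
      (hm := inferInstanceAs (IsMinimal _ (minimal _ _))) ((eqv v).eq_one_iff_eq_one.2 hu)
      ((eqv v).lt_one_iff_lt_one.2 h3) ((eqv v).lt_one_iff_lt_one.2
        (a1 ▸ pow_lt_one₀ zero_le h3 (by norm_num))) a2 e2 e3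
    rw [res_iff] at k
    refine ⟨fun _ h' => h'.additiveReduction.ne a2, ?_⟩
    rw [locRoot]
    by_cases s : IsSquare (D : 𝓞 K ⧸ v.asIdeal)
    · rw [if_pos (k.2 s), if_pos ⟨h, s⟩]
    · rw [if_neg (k.not.2 s), if_pos fun h' => h'.additiveReduction.ne a2, if_neg fun h => s h.2]
  · have h3 : v.valuation K 11 = 1 := by exact_mod_cast (val_int v 11).2 (by exact_mod_cast h)
    have : ¬ vv (v.valuation K).valuationSubring K (mdl (WK D K) v).Δ < 1 := by
      rw [(eqv v).lt_one_iff_lt_one, a1, h3]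
      simp
    refine ⟨fun _ h => this h.badReduction, ?_⟩
    rw [locRoot, if_neg fun h => this h.badReduction, if_pos fun h => this h.badReduction,
      if_neg fun k => h k.1]

theorem fin11 (K : Type) [Field K] [NumberField K] :
    {v : HeightOneSpectrum (𝓞 K) | (11 : 𝓞 K) ∈ v.asIdeal}.Finite :=
  (Ideal.finite_factors (I := Ideal.span {(11 : 𝓞 K)}) (by simp)).subset
    fun _ h => Ideal.dvd_span_singleton.2 h

theorem root (K : Type) [Field K] [NumberField K] (h4 : D % 4 = 1) (h3 : IsCoprime D 3)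
    (h11 : IsCoprime D 11) : HasRoot (WK D K) ((-1) ^ (Fintype.card (InfinitePlace K) +
      {v : HeightOneSpectrum (𝓞 K) | (11 : 𝓞 K) ∈ v.asIdeal ∧
        IsSquare (D : 𝓞 K ⧸ v.asIdeal)}.ncard) * D.sign ^ Module.finrank ℚ K) := by
  refine ⟨fun v h6 => (loc h4 h11 v).1 (not_mem (a := 6) ((h3.mul_right
    (Int.isCoprime_two_right.2 (Int.odd_iff.2 (by omega)))).symm) (by exact_mod_cast h6)), ?_⟩
  have i0 : Ideal.span {(D : 𝓞 K)} ≠ 0 := by
    rw [Ne, Ideal.zero_eq_bot, Ideal.span_singleton_eq_bot, Int.cast_eq_zero]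
    omega
  have f := Ideal.hasFiniteMulSupport i0
  have hS : {v : HeightOneSpectrum (𝓞 K) | (11 : 𝓞 K) ∈ v.asIdeal ∧
    IsSquare (D : 𝓞 K ⧸ v.asIdeal)}.Finite := (fin11 K).subset fun _ h => h.1
  have s : Function.mulSupport (fun v : HeightOneSpectrum (𝓞 K) =>
      if (11 : 𝓞 K) ∈ v.asIdeal ∧ IsSquare (D : 𝓞 K ⧸ v.asIdeal) then (-1 : ℤ) else 1) ⊆
      {v | (11 : 𝓞 K) ∈ v.asIdeal ∧ IsSquare (D : 𝓞 K ⧸ v.asIdeal)} :=
    fun v h => by_contra fun n => h (if_neg n)
  rw [finprod_congr fun v => (loc h4 h11 v).2, finprod_mul_distrib (hS.subset s)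
    (f.subset fun v h e => h ((congrArg (psi K) e).trans (map_one _))), ← (psi K).map_finprod f,
    Ideal.finprod_heightOneSpectrum_factorization i0,
    finprod_eq_prod_of_mulSupport_subset_of_finite _ s hS,
    Finset.prod_congr rfl (g := fun _ => (-1 : ℤ)) fun v h => by exact if_pos (hS.mem_toFinset.1 h),
    Finset.prod_const,
    ← Set.ncard_eq_toFinset_card _ hS, pow_add, mul_assoc]
  congr 2
  change _ = ZMod.χ₄ (Ideal.absNorm (Ideal.span {(D : 𝓞 K)}) : ℕ)
  rw [Ideal.absNorm_span_singleton, ← eq_intCast (algebraMap ℤ (𝓞 K)), Algebra.norm_algebraMap,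
    Int.natAbs_pow, Nat.cast_pow, map_pow, RingOfIntegers.rank]
  congr 1
  rcases lt_or_gt_of_ne (show D ≠ 0 by omega) with h | h
  · rw [Int.sign_eq_neg_one_of_neg h, ZMod.χ₄_nat_three_mod_four (by omega)]
  · rw [Int.sign_eq_one_of_pos h, ZMod.χ₄_nat_one_mod_four (by omega)]

end Pool.Agent.Lib.MP_02f36d_nt.NP
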