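import Pool.Agent.Lib.MP_02f36d_nt.NP.TwCnt
import Pool.Agent.Lib.MP_02f36d_nt.NP.TwLoc
import Pool.Agent.Lib.MP_02f36d_nt.QF.All

/-! The parity of the rank of almost all quadratic twists of `X₀(11)` over a given field. -/

set_option autoImplicit false

open Finset Module NumberField IsDedekindDomain WeierstrassCurve Filter Topology
open Pool.Agent.Lib.MP_02f36d_nt.X11 (Wd)
open Pool.Agent.Lib.MP_d6ddbd_nt

noncomputable section

namespace Pool.Agent.Lib.MP_02f36d_nt.NP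

open QF

theorem dec (n : ℤ) : ∃ b d : ℤ, b ^ 2 * d = n ∧ Squarefree d := by
  obtain ⟨a, b, e, h⟩ := Nat.sq_mul_squarefree n.natAbs
  rcases Int.natAbs_eq n with k | k
  · exact ⟨b, a, by rw [k, ← e]; simp, Int.squarefree_natCast.2 h⟩
  · exact ⟨b, -a, by rw [k, ← e]; simp, Int.squarefree_natAbs.1 (by simpa using h)⟩

theorem one_chi {D c b d : ℤ} (h0 : D ≠ 0) (h11 : IsCoprime D 11) (hc : Squarefree c)
    (e : b ^ 2 * d = D * c) (g : Good d) :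
    Even (finrank ℤ (Wd d).toAffine.Point + (if 0 < c then 1 else 0) +
      (if jacobiSym c 11 = 1 then 1 else 0) +
      (if jacobiSym D 11 = 1 then 0 else if ¬ (11 : ℤ) ∣ c then 1 else 0) +
      if D < 0 then 1 else 0) := by
  have : Fact (Nat.Prime 11) := ⟨by norm_num⟩
  have p : Prime (11 : ℤ) := by norm_num
  have c0 := hc.ne_zero
  have b0 : b ≠ 0 := by
    rintro rfl
    exact mul_ne_zero h0 c0 (by simpa using e.symm)
  have b1 : ¬ (11 : ℤ) ∣ b := fun h => p.not_isUnit (hc 11 (by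
    have : (11 : ℤ) ^ 2 ∣ D * c := e ▸ (pow_dvd_pow_of_dvd h 2).mul_right _
    simpa [sq] using (h11.symm.pow_left (m := 2)).dvd_of_dvd_mul_left this))
  have j : jacobiSym d 11 = jacobiSym D 11 * jacobiSym c 11 := by
    rw [← jacobiSym.mul_left, ← e, jacobiSym.mul_left, jacobiSym.sq_one'
      (Int.isCoprime_iff_gcd_eq_one.1 (p.coprime_iff_not_dvd.2 b1).symm), one_mul]
  have s : 0 < d ↔ 0 < D * c := by
    rw [← e, mul_pos_iff_of_pos_left (by positivity)]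
  have j1 := jacobiSym.eq_one_or_neg_one (a := D) (b := 11) (Int.isCoprime_iff_gcd_eq_one.1 h11)
  have j2 : jacobiSym c 11 = 0 ↔ (11 : ℤ) ∣ c := by
    rw [← jacobiSym.legendreSym.to_jacobiSym, legendreSym.eq_zero_iff,
      ZMod.intCast_zmod_eq_zero_iff_dvd]
    rfl
  obtain ⟨-, r1, r2⟩ := g
  rw [j, s, mul_pos_iff] at r2
  simp only [← j2, Nat.even_iff]
  rcases j1 with j1 | j1 <;> rcases jacobiSym.trichotomy c 11 with j3 | j3 | j3 <;>
    rcases lt_or_gt_of_ne h0 with s1 | s1 <;> rcases lt_or_gt_of_ne c0 with s2 | s2 <;>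
    simp [j1, j3, s1, s2, s1.not_gt, s2.not_gt] at r2 ⊢ <;> omega

theorem parM (M : Type) [Field M] [NumberField M] [DecidableEq M] [IsGalois ℚ M]
    (hM : ∀ σ : M ≃ₐ[ℚ] M, σ ^ 2 = 1) : ∃ C : Finset ℤ, (∀ c ∈ C, c ≠ 0) ∧
    ∀ D : ℤ, D ≠ 0 → IsCoprime D 11 →
      (∀ c ∈ C, ∀ b d : ℤ, b ^ 2 * d = D * c → Squarefree d → Good d) →
      finrank ℤ (WK D M).toAffine.Point ≤ finrank ℚ M ∧
      Even (finrank ℤ (WK D M).toAffine.Point + Fintype.card (InfinitePlace M) +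
        {v : HeightOneSpectrum (𝓞 M) | (11 : 𝓞 M) ∈ v.asIdeal}.ncard +
        (if jacobiSym D 11 = 1 then 0 else Nat.card (Pr11 (GI (𝓞 M)))) +
        if D < 0 then finrank ℚ M else 0) := by
  classical
  have : Finite ((M ≃ₐ[ℚ] M) →* ℤˣ) := Finite.of_injective _ DFunLike.coe_injective
  have := Fintype.ofFinite ((M ≃ₐ[ℚ] M) →* ℤˣ)
  choose c s c1 c2 c3 using kummer (K := M)
  refine ⟨univ.image c, fun x hx => ?_, fun D h0 h11 h => ?_⟩
  · obtain ⟨χ, -, rfl⟩ := mem_image.1 hx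
    exact (c1 χ).ne_zero
  choose b d e1 e2 using fun χ => dec (D * c χ)
  have g := fun χ => h _ (mem_image_of_mem _ (mem_univ χ)) _ _ (e1 χ) (e2 χ)
  have b0 : ∀ χ, (b χ : M) ≠ 0 := fun χ => Int.cast_ne_zero.2 fun e =>
    mul_ne_zero h0 (c1 χ).ne_zero (by simpa [e] using (e1 χ).symm)
  choose f f1 f2 using fun χ => twd (D := D) χ (s := s χ / b χ) (e2 χ).ne_zero (by
    have := congrArg (Int.cast : ℤ → M) (e1 χ)
    have := b0 χ
    push_cast at *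
    field_simp
    rw [c2]
    linear_combination -‹(b χ : M) ^ 2 * _ = _›) fun σ => by
      rw [map_div₀, c3, map_intCast, mul_div_assoc]
  have := fun χ => (g χ).1
  obtain ⟨-, r⟩ := rank_sum hM (rhw D) rhw_one rhw_mul _ f f1 f2 (fin_tw h0)
  obtain ⟨D1, d1, d2⟩ := card_fin M
  obtain ⟨D2, d3, d4⟩ := card_inf M
  obtain ⟨D3, d5, d6⟩ := card_gi M
  have k : ∀ H : Subgroup (M ≃ₐ[ℚ] M),
      H.index = ∑ χ : (M ≃ₐ[ℚ] M) →* ℤˣ, if ∀ σ ∈ H, χ σ = 1 then 1 else 0 := fun H => by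
    rw [← card_triv hM, ← card_filter, ← Set.ncard_coe_finset]
    simp
  have n : finrank ℚ M = ∑ _χ : (M ≃ₐ[ℚ] M) →* ℤˣ, 1 := by
    rw [← IsGalois.card_aut_eq_finrank, ← Subgroup.index_bot, k]
    simp
  refine ⟨by rw [r, n]; exact sum_le_sum fun χ _ => (g χ).2.1, ?_⟩
  have := even_sum (s := univ) _ fun χ _ => one_chi h0 h11 (c1 χ) (e1 χ) (g χ)
  rw [r, d1, d3, d5, k, k, k, n]
  simp only [fun χ => d2 χ _ _ (c1 χ) (c2 χ) (c3 χ), fun χ => d6 χ _ _ (c1 χ) (c2 χ) (c3 χ),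
    fun χ => d4 χ _ _ (c1 χ).ne_zero (c2 χ) (c3 χ)]
  simp only [sum_add_distrib] at this
  by_cases a1 : jacobiSym D 11 = 1 <;> by_cases a2 : D < 0 <;>
    simpa only [a1, a2, if_true, if_false, sum_const_zero] using this

theorem pm_ns : ∀ x : ZMod 11, (¬ ∃ y, x = y * y) → ∃ a b : ZMod 11, x = -a ^ 2 ∧ a * b = 1 := by
  decide

theorem parK (K : Type) [Field K] [NumberField K] {D : ℤ} (h11 : IsCoprime D 11) :
    Even ({v : HeightOneSpectrum (𝓞 K) | (11 : 𝓞 K) ∈ v.asIdeal ∧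
      IsSquare (D : 𝓞 K ⧸ v.asIdeal)}.ncard +
      {v : HeightOneSpectrum (𝓞 K) | (11 : 𝓞 K) ∈ v.asIdeal}.ncard +
      if jacobiSym D 11 = 1 then 0 else Nat.card (Pr11 (GI (𝓞 K)))) := by
  have : Fact (Nat.Prime 11) := ⟨by norm_num⟩
  have c0 : (D : ZMod 11) ≠ 0 := fun h => absurd (h11.isUnit_of_dvd'
    ((ZMod.intCast_zmod_eq_zero_iff_dvd D 11).1 h) dvd_rfl) (by decide)
  have l : ∀ v : HeightOneSpectrum (𝓞 K), (11 : 𝓞 K) ∈ v.asIdeal →
      ∃ φ : ZMod 11 →+* 𝓞 K ⧸ v.asIdeal, φ D = D := fun v h =>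
    ⟨ZMod.castHom (m := ringChar (𝓞 K ⧸ v.asIdeal)) (by
      rw [← Ideal.Quotient.eq_zero_iff_mem, map_ofNat] at h
      exact (ringChar.spec _ 11).1 (by exact_mod_cast h)) _, map_intCast _ _⟩
  have jj : jacobiSym D 11 = 1 ↔ IsSquare (D : ZMod 11) := by
    rw [← jacobiSym.legendreSym.to_jacobiSym, legendreSym.eq_one_iff _ c0]
  split_ifs with h <;> rw [jj] at h
  · rw [show {v : HeightOneSpectrum (𝓞 K) | (11 : 𝓞 K) ∈ v.asIdeal ∧
        IsSquare (D : 𝓞 K ⧸ v.asIdeal)} = {v | (11 : 𝓞 K) ∈ v.asIdeal} from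
      Set.ext fun v => and_iff_left_of_imp fun k => (l v k).elim fun φ e => e ▸ h.map φ]
    exact ⟨_, rfl⟩
  obtain ⟨a, b, h1, h2⟩ := pm_ns _ h
  have e : {P ∈ Pr11 (𝓞 K) | ¬ IsSquare (-1 : 𝓞 K ⧸ P)}.ncard =
      ({v : HeightOneSpectrum (𝓞 K) | (11 : 𝓞 K) ∈ v.asIdeal} \
        {v | IsSquare (D : 𝓞 K ⧸ v.asIdeal)}).ncard := by
    have q : ∀ v : HeightOneSpectrum (𝓞 K), (11 : 𝓞 K) ∈ v.asIdeal →
        (IsSquare (D : 𝓞 K ⧸ v.asIdeal) ↔ IsSquare (-1 : 𝓞 K ⧸ v.asIdeal)) := fun v k => by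
      obtain ⟨φ, e⟩ := l v k
      have h3 := congrArg φ h2
      rw [← e, h1, map_neg, map_pow]
      rw [map_mul, map_one] at h3
      exact ⟨fun ⟨x, hx⟩ => ⟨x * φ b, by
        linear_combination φ b ^ 2 * hx + (φ a * φ b + 1) * h3⟩,
        fun ⟨x, hx⟩ => ⟨x * φ a, by linear_combination φ a ^ 2 * hx⟩⟩
    refine (Set.ncard_congr (fun v _ => v.asIdeal) (fun v h => by
      exact ⟨mem_pr.2 ⟨v.isPrime, h.1⟩, (q v h.1).not.1 h.2⟩) (fun _ _ _ _ e => HeightOneSpectrum.ext e) fun P h => ?_).symm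
    obtain ⟨h3, h4⟩ := mem_pr.1 h.1
    have h5 : P ≠ ⊥ := by
      rintro rfl
      simp at h4
    exact ⟨⟨P, h3, h5⟩, ⟨h4, (q ⟨P, h3, h5⟩ h4).not.2 h.2⟩, rfl⟩
  have g := gi_par (𝓞 K)
  have t := Set.ncard_inter_add_ncard_sdiff_eq_ncard
    {v : HeightOneSpectrum (𝓞 K) | (11 : 𝓞 K) ∈ v.asIdeal}
    {v | IsSquare (D : 𝓞 K ⧸ v.asIdeal)} (fin11 K)
  rw [e] at g
  change Even (({v : HeightOneSpectrum (𝓞 K) | (11 : 𝓞 K) ∈ v.asIdeal} ∩
    {v | IsSquare (D : 𝓞 K ⧸ v.asIdeal)}).ncard + _ + _)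
  rw [Nat.even_iff] at *
  omega

/-- Density zero. -/
def Dz (S : Set ℤ) : Prop :=
  Tendsto (fun X : ℕ => ({d ∈ S | |d| ≤ X}.ncard : ℝ) / X) atTop (𝓝 0)

theorem fin_le (S : Set ℤ) (X : ℤ) : {d ∈ S | |d| ≤ X}.Finite :=
  (Set.finite_Icc (-X) X).subset fun _ h => abs_le.1 h.2

theorem Dz.mono {S T : Set ℤ} (h : Dz T) (s : S ⊆ T) : Dz S :=
  squeeze_zero (fun X => by positivity) (fun X => div_le_div_of_nonneg_right
    (Nat.cast_le.2 (Set.ncard_le_ncard (fun _ a => by exact ⟨s a.1, a.2⟩) (fin_le _ _))) X.cast_nonneg) h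

theorem Dz.union {S T : Set ℤ} (h : Dz S) (k : Dz T) : Dz (S ∪ T) := by
  have := h.add k
  rw [add_zero] at this
  refine squeeze_zero (fun X => by positivity) (fun X => ?_) this
  rw [← add_div, ← Nat.cast_add]
  refine div_le_div_of_nonneg_right (Nat.cast_le.2 ((Set.ncard_le_ncard (fun _ a => ?_)
    ((fin_le _ _).union (fin_le _ _))).trans (Set.ncard_union_le _ _))) X.cast_nonneg
  exact a.1.imp (⟨·, a.2⟩) (⟨·, a.2⟩)

theorem Dz.fin {ι : Type} (s : Finset ι) {S : ι → Set ℤ} (h : ∀ i ∈ s, Dz (S i)) :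
    Dz {d | ∃ i ∈ s, d ∈ S i} := by
  classical
  induction s using Finset.induction_on with
  | empty => simp [Dz]
  | insert a s _ ih =>
    refine ((h a (mem_insert_self _ _)).union
      (ih fun i hi => h i (mem_insert_of_mem hi))).mono ?_
    rintro d ⟨i, hi, k⟩
    rcases mem_insert.1 hi with rfl | e
    exacts [Or.inl k, Or.inr ⟨i, e, k⟩]

theorem Dz.scale {Z : Set ℤ} (h : Dz Z) {b c : ℤ} (hb : b ≠ 0) (hc : c ≠ 0) :
    Dz {D | ∃ d ∈ Z, b ^ 2 * d = D * c} := by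
  have c0 : 0 < c.natAbs := Int.natAbs_pos.2 hc
  have := (h.comp (tendsto_id.const_mul_atTop' c0)).const_mul (c.natAbs : ℝ)
  rw [mul_zero] at this
  refine squeeze_zero (fun X => by positivity) (fun X => ?_) this
  have c1 : (c.natAbs : ℝ) ≠ 0 := Nat.cast_ne_zero.2 c0.ne'
  simp only [Function.comp, id]
  rw [Nat.cast_mul (α := ℝ), mul_div_assoc', mul_div_mul_left _ _ c1]
  refine div_le_div_of_nonneg_right (Nat.cast_le.2 (Set.ncard_le_ncard_of_injOn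
    (fun D => D * c / b ^ 2) ?_ ?_ (fin_le _ _))) X.cast_nonneg
  · rintro D ⟨⟨d, hd, e⟩, k⟩
    rw [Set.mem_sep_iff, ← e, Int.mul_ediv_cancel_left _ (pow_ne_zero _ hb)]
    refine ⟨hd, ?_⟩
    have e' := congrArg abs e
    have : 1 ≤ b ^ 2 := sq_pos_of_ne_zero hb
    rw [abs_mul, abs_mul, abs_of_nonneg (sq_nonneg b)] at e'
    push_cast
    nlinarith [abs_nonneg d, abs_nonneg c]
  · rintro D ⟨⟨d, -, e⟩, -⟩ D' ⟨⟨d', -, e'⟩, -⟩ k
    simp only [← e, ← e', Int.mul_ediv_cancel_left _ (pow_ne_zero _ hb)] at k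
    exact mul_right_cancel₀ hc (by rw [← e, ← e', k])

theorem every (hA : KA.MainStmt) (M K : Type) [Field M] [NumberField M] [DecidableEq M]
    [IsGalois ℚ M] [Field K] [NumberField K] [DecidableEq K] [Algebra M K]
    (G : Subgroup (K ≃ₐ[ℚ] K)) (N : Subgroup G) [N.Normal] (h1 : Odd (Nat.card N))
    (h2 : IsPGroup 2 (G ⧸ N)) (hM : ∀ τ : M ≃ₐ[ℚ] M, τ ^ 2 = 1)
    (hr : ∀ x : K, (∀ σ ∈ G, σ (σ x) = x) → x ∈ Set.range (algebraMap M K)) :
    Dz {D | Squarefree D ∧ D % 4 = 1 ∧ D.natAbs.Coprime 33 ∧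
      ¬ (Module.Finite ℤ (WK D K).toAffine.Point ∧
        finrank ℤ (WK D M).toAffine.Point ≤ finrank ℚ M ∧
        T17.HasRoot (WK D K) ((-1) ^ finrank ℤ (WK D K).toAffine.Point))} := by
  have hZ : Dz {d | Squarefree d ∧ ¬ Good d} := by
    simpa only [Dz, Set.mem_ofPred_eq, and_comm (b := |_| ≤ _)] using
      GQ.den_all fun d a b c => good_all hA a b c
  obtain ⟨C, c0, hC⟩ := parM M hM
  refine (Dz.fin C fun c hc => Dz.fin (S := fun b => {D | ∃ d ∈ _, b ^ 2 * d = D * c})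
    ((Icc (-|c|) |c|).erase 0) fun b hb => hZ.scale (ne_of_mem_erase hb) (c0 c hc)).mono ?_
  rintro D ⟨s, h4, h33, n⟩
  by_contra k
  have h0 := s.ne_zero
  have cp : IsCoprime D 33 := Int.isCoprime_iff_gcd_eq_one.2 h33
  have h11 : IsCoprime D 11 := cp.of_isCoprime_of_dvd_right (by norm_num)
  obtain ⟨a, b⟩ := hC D h0 h11 fun c hc b d e sd => by_contra fun g => k ⟨c, hc, b, mem_erase.2
    ⟨fun z => mul_ne_zero h0 (c0 c hc) (by simpa [z] using e.symm), mem_Icc.2 (abs_le.1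
      (Int.le_of_dvd (abs_pos.2 (c0 c hc)) ((abs_dvd_abs _ _).2
        (s.dvd_of_squarefree_of_mul_dvd_mul_right ⟨d, by rw [← e, sq]⟩))))⟩, d, ⟨sd, g⟩, e⟩
  have hf : ∀ g ∈ sqs G, ∀ m : M, g.1 (algebraMap M K m) = algebraMap M K m :=
    fun g hg => fix hM hg
  have hr' : ∀ x : K, (∀ g ∈ sqs G, g.1 x = x) → ∃ m, algebraMap M K m = x := fun x h =>
    hr x fun σ hσ => by simpa [sq] using h _ (sq_mem ⟨σ, hσ⟩)
  have c1 := par_tw N h1 h2 hf hr' h0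
  have c2 := par_inf N h1 h2 hf hr'
  have c3 := par_fin N h1 h2 hf hr'
  have c4 := par_deg N h1 h2 hf hr'
  have c5 := gi_tr N h1 h2 (algebraMap (𝓞 M) (𝓞 K)) (FaithfulSMul.algebraMap_injective _ _)
    (fun g hg m => RingOfIntegers.ext (hf g hg m)) (hr_int hr')
  have c6 := parK K h11
  refine n ⟨mwk h0, a, ?_⟩
  convert root K h4 (cp.of_isCoprime_of_dvd_right (by norm_num)) h11 using 1
  rcases lt_or_gt_of_ne h0 with s1 | s1
  · rw [Int.sign_eq_neg_one_of_neg s1, ← pow_add]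
    rw [if_pos s1] at b
    refine neg_one_pow_congr ?_
    simp only [Nat.even_iff] at *
    split_ifs at b c6 <;> omega
  · rw [Int.sign_eq_one_of_pos s1, one_pow, mul_one]
    rw [if_neg s1.not_gt] at b
    refine neg_one_pow_congr ?_
    simp only [Nat.even_iff] at *
    split_ifs at b c6 <;> omega

end Pool.Agent.Lib.MP_02f36d_nt.NP
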