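import Pool.Agent.Lib.MP_02f36d_nt.NP.Fld

/-! The points of the quadratic twists of `X₀(11)` over a number field. -/

set_option autoImplicit false

open Finset Module WeierstrassCurve WeierstrassCurve.Affine NumberField Pool.Agent.C17
open Pool.Agent.Lib.MP_02f36d_nt.X11 (Wd)

noncomputable section

namespace Pool.Agent.Lib.MP_02f36d_nt.NP

open QF

/-- The twist by `D` over `K`. -/
def WK (D : ℤ) (K : Type) [CommRing K] : WeierstrassCurve K :=
  ⟨0, -4 * D, 0, -160 * D ^ 2, -1264 * D ^ 3⟩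

variable {K : Type} [Field K] [NumberField K] {D : ℤ}

theorem wk_c4 (hD : D ≠ 0) : (WK D K).c₄ ≠ 0 := by
  have : (WK D K).c₄ = 7936 * D ^ 2 := by
    simp only [WK, c₄, b₂, b₄]
    ring
  rw [this]
  exact mul_ne_zero (by norm_num) (pow_ne_zero _ (Int.cast_ne_zero.2 hD))

omit [NumberField K] in
theorem wk_map {L : Type} [Field L] (σ : K →+* L) :
    (WK D K).toAffine.map σ = (WK D L).toAffine := by
  ext <;> simp [WK, map_ofNat]

omit [NumberField K] in
theorem wk_neg {P : (WK D K).toAffine.Point} (h : P ≠ 0) : yc (-P) = -yc P :=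
  (yc_neg h).trans (by
    rw [show (WK D K).toAffine.a₁ = 0 from rfl, show (WK D K).toAffine.a₃ = 0 from rfl]
    ring)

variable [DecidableEq K]

theorem mwk (hD : D ≠ 0) : Module.Finite ℤ (WK D K).toAffine.Point := by
  classical
  obtain ⟨F, _, _, j, x, y, z, h1, h2, h3, n1, n2, n3⟩ := roots K
  have d0 : (D : F) ≠ 0 := Int.cast_ne_zero.2 hD
  refine fg_of j _ (mul_ne_zero d0 n1) (mul_ne_zero d0 n2) (mt (mul_left_cancel₀ d0) n3) rfl rfl
    (C := ⟨1, -(D * x), 0, 0⟩) ?_ (wk_c4 hD)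
  ext <;> simp [WK, Rk.cv, variableChange_def, map_ofNat]
  · linear_combination (-(D : F)) * h1
  · linear_combination (D : F) ^ 2 * h2
  · linear_combination (-(D : F) ^ 3) * h3

variable (D) in
/-- The Galois action on the points. -/
def rhw (σ : K ≃ₐ[ℚ] K) : (WK D K).toAffine.Point →+ (WK D K).toAffine.Point :=
  ptMap (σ : K →+* K) (wk_map _)

theorem rhw_one (P : (WK D K).toAffine.Point) : rhw D 1 P = P := by cases P <;> rfl

theorem rhw_mul (σ τ : K ≃ₐ[ℚ] K) (P : (WK D K).toAffine.Point) :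
    rhw D (σ * τ) P = rhw D σ (rhw D τ P) := by cases P <;> rfl

theorem fin_tw (hD : D ≠ 0) : {P : (WK D K).toAffine.Point | 2 • P = 0}.Finite := by
  have := mwk (K := K) hD
  have : Finite (Submodule.torsion ℤ (WK D K).toAffine.Point) :=
    Module.finite_of_fg_torsion _ Submodule.torsion_isTorsion
  exact (Set.toFinite (Submodule.torsion ℤ (WK D K).toAffine.Point : Set _)).subset fun P hP =>
    (Submodule.mem_torsion_iff P).2
      ⟨⟨2, mem_nonZeroDivisors_of_ne_zero two_ne_zero⟩, (natCast_zsmul P 2).trans hP⟩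

/-- The points of the twist are the points in the eigenspace. -/
theorem twd [IsGalois ℚ K] (χ : (K ≃ₐ[ℚ] K) →* ℤˣ) {c : ℤ} {s : K} (c0 : c ≠ 0)
    (hs : s ^ 2 * D = c) (hχ : ∀ σ : K ≃ₐ[ℚ] K, σ s = (χ σ : ℤ) * s) :
    ∃ f : (Wd c).toAffine.Point →+ (WK D K).toAffine.Point, Function.Injective f ∧
      ∀ P, (∃ Q, f Q = P) ↔ ∀ σ, rhw D σ P = (χ σ : ℤ) • P := by
  have s0 : s ≠ 0 := fun e => (Int.cast_ne_zero (α := K)).2 c0 (by rw [← hs, e]; simp)
  let U : Affine K := (Wd c).toAffine.map (algebraMap ℚ K)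
  let C : VariableChange K := ⟨Units.mk0 s⁻¹ (by simpa using s0), 0, 0, 0⟩
  have hC : C • (WK D K).toAffine = U := by
    ext <;> simp [U, C, Wd, WK, variableChange_def, ← hs] <;> ring1
  have hc : U.c₄ ≠ 0 := by
    rw [show U = _ from wk_map (D := c) (algebraMap ℚ K)]
    exact wk_c4 c0
  let f : (Wd c).toAffine.Point →+ (WK D K).toAffine.Point :=
    (AddMonoidHom.mk' (vcFun hC) (vc_add hC hc)).comp (ptMap (algebraMap ℚ K) rfl)
  have sp : ∀ {Q}, Q ≠ 0 → f Q ≠ 0 ∧ xc (f Q) = s⁻¹ ^ 2 * (xc Q : ℚ) ∧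
      yc (f Q) = s⁻¹ ^ 3 * (yc Q : ℚ) := fun hQ => by
    obtain ⟨a, b, c⟩ := vcFun_spec hC (ptMap_ne (j := algebraMap ℚ K) rfl hQ)
    rw [yc_ptMap] at c
    rw [xc_ptMap] at b
    refine ⟨a, b.trans ?_, c.trans ?_⟩ <;> simp [C]
  have key : ∀ (σ : K ≃ₐ[ℚ] K) {P : (WK D K).toAffine.Point}, P ≠ 0 →
      (rhw D σ P = (χ σ : ℤ) • P ↔ σ (xc P) = xc P ∧ σ (yc P) = (χ σ : ℤ) * yc P) :=
    fun σ P h0 => by
      have a : xc (rhw D σ P) = σ (xc P) := xc_ptMap _ _
      have b : yc (rhw D σ P) = σ (yc P) := yc_ptMap _ _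
      have n : rhw D σ P ≠ 0 := ptMap_ne _ h0
      rw [← a, ← b]
      rcases Int.units_eq_one_or (χ σ) with e | e <;> rw [e]
      · rw [Units.val_one, one_smul, Int.cast_one, one_mul]
        exact ⟨fun e => by rw [e]; exact ⟨rfl, rfl⟩, fun e => pt_ext n h0 e.1 e.2⟩
      · have y := wk_neg h0
        rw [Units.val_neg, Units.val_one, neg_smul, one_smul, Int.cast_neg, Int.cast_one]
        refine ⟨fun e => ?_, fun e => pt_ext n (neg_ne_zero.2 h0) (e.1.trans (xc_neg P).symm) ?_⟩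
        · rw [e]
          exact ⟨xc_neg P, by linear_combination y⟩
        · linear_combination e.2 - y
  have q : ∀ σ, ((χ σ : ℤ) : K) ^ 2 = 1 := fun σ => by
    rw [sq, ← Int.cast_mul, ← Units.val_mul, Int.units_mul_self, Units.val_one, Int.cast_one]
  refine ⟨f, (injective_iff_map_eq_zero _).2 fun Q h => by_contra fun k => (sp k).1 h,
    fun P => ⟨?_, fun h => ?_⟩⟩
  · rintro ⟨Q, rfl⟩ σ
    by_cases h0 : Q = 0
    · simp [h0]
    obtain ⟨a, b, e⟩ := sp h0
    have n : ((χ σ : ℤ) : K) ≠ 0 := fun e => by simpa [e] using q σ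
    rw [key σ a, b, e]
    simp only [map_mul, map_pow, map_inv₀, map_ratCast, hχ]
    constructor <;> field_simp
    · rw [q, one_mul]
    · linear_combination (-(yc Q : ℚ) * (((χ σ : ℤ) : K) ^ 2 + 1)) * q σ
  · by_cases h0 : P = 0
    · exact ⟨0, by rw [h0, map_zero]⟩
    obtain ⟨x, hx⟩ := (IsGalois.mem_range_algebraMap_iff_fixed (F := ℚ)
      (s ^ 2 * xc P)).2 fun σ => by
        rw [map_mul, map_pow, hχ, ((key σ h0).1 (h σ)).1]
        linear_combination s ^ 2 * xc P * q σ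
    obtain ⟨y, hy⟩ := (IsGalois.mem_range_algebraMap_iff_fixed (F := ℚ)
      (s ^ 3 * yc P)).2 fun σ => by
        rw [map_mul, map_pow, hχ, ((key σ h0).1 (h σ)).2]
        linear_combination s ^ 3 * yc P * (((χ σ : ℤ) : K) ^ 2 + 1) * q σ
    have hC' : C⁻¹ • U = (WK D K).toAffine := by rw [← hC, inv_smul_smul]
    obtain ⟨a, b, e⟩ := vcFun_spec hC' h0
    obtain ⟨Q, hQ⟩ := mem_range_ptMap (j := algebraMap ℚ K) (V := (Wd c).toAffine) rfl
      (Q := vcFun hC' P) (x := x) (y := y)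
      (by rw [b, hx]; simp [C, VariableChange.inv_def])
      (by rw [e, hy]; simp [C, VariableChange.inv_def])
    have Q0 : Q ≠ 0 := by
      rintro rfl
      exact a (hQ.symm.trans (map_zero _))
    obtain ⟨a', b', e'⟩ := sp Q0
    have x' : ((xc Q : ℚ) : K) = _ := (xc_ptMap rfl Q).symm.trans ((congrArg xc hQ).trans b)
    have y' : ((yc Q : ℚ) : K) = _ := (yc_ptMap rfl Q).symm.trans ((congrArg yc hQ).trans e)
    refine ⟨Q, pt_ext a' h0 ?_ ?_⟩
    · rw [b', x']
      simp [C, VariableChange.inv_def]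
      field_simp
    · rw [e', y']
      simp [C, VariableChange.inv_def]
      field_simp

variable {M : Type} [Field M] [NumberField M] [Algebra M K] {G : Subgroup (K ≃ₐ[ℚ] K)}
  (N : Subgroup G) [N.Normal] (h1 : Odd (Nat.card N)) (h2 : IsPGroup 2 (G ⧸ N))
  (hf : ∀ g ∈ sqs G, ∀ m : M, g.1 (algebraMap M K m) = algebraMap M K m)
  (hr : ∀ x : K, (∀ g ∈ sqs G, g.1 x = x) → ∃ m, algebraMap M K m = x)

include h1 h2 hf hr

omit [NumberField M] in
theorem par_tw [DecidableEq M] (hD : D ≠ 0) :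
    Even (finrank ℤ (WK D K).toAffine.Point + finrank ℤ (WK D M).toAffine.Point) := by
  have := mwk (K := K) hD
  have e : (WK D M).toAffine.map (algebraMap M K) = (WK D K).toAffine := wk_map _
  let ρ : G →* End ℤ (WK D K).toAffine.Point :=
    { toFun := fun g => (rhw D g.1).toIntLinearMap
      map_one' := LinearMap.ext rhw_one
      map_mul' := fun a b => LinearMap.ext (rhw_mul a.1 b.1) }
  refine par N h1 h2 ρ (ptMap _ e).toIntLinearMap (ptMap_injective e) fun P => ⟨?_, fun h => ?_⟩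
  · rintro ⟨Q, rfl⟩ g hg
    by_cases h0 : Q = 0
    · simp [h0]
    have n := ptMap_ne e h0
    refine pt_ext (ptMap_ne (wk_map _) n) n ((xc_ptMap (wk_map _) _).trans ?_)
      ((yc_ptMap (wk_map _) _).trans ?_)
    · exact (xc_ptMap e Q).symm ▸ hf g hg _
    · exact (yc_ptMap e Q).symm ▸ hf g hg _
  · obtain ⟨x, hx⟩ := hr (xc P) fun g hg =>
      (xc_ptMap (wk_map _) P).symm.trans (congrArg xc (h g hg))
    obtain ⟨y, hy⟩ := hr (yc P) fun g hg =>
      (yc_ptMap (wk_map _) P).symm.trans (congrArg yc (h g hg))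
    exact mem_range_ptMap e hx.symm hy.symm

omit [DecidableEq K] [NumberField M] h1 h2 hf in
theorem hr_int (b : 𝓞 K) (hb : ∀ g ∈ sqs G, g • b = b) : ∃ m, algebraMap (𝓞 M) (𝓞 K) m = b := by
  obtain ⟨m, hm⟩ := hr b fun g hg => congrArg (fun z : 𝓞 K => (z : K)) (hb g hg)
  exact ⟨⟨m, (isIntegral_algebraMap_iff (algebraMap M K).injective).1 (hm ▸ b.2)⟩,
    RingOfIntegers.ext hm⟩

omit [DecidableEq K] in
theorem par_deg : Even (finrank ℚ K + finrank ℚ M) := by
  rw [← RingOfIntegers.rank, ← RingOfIntegers.rank]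
  refine par N h1 h2 (DistribMulAction.toModuleEnd ℤ (𝓞 K))
    (algebraMap (𝓞 M) (𝓞 K)).toAddMonoidHom.toIntLinearMap
    (FaithfulSMul.algebraMap_injective (𝓞 M) (𝓞 K)) fun b => ⟨?_, hr_int hr b⟩
  rintro ⟨m, rfl⟩ g hg
  exact RingOfIntegers.ext (hf g hg m)

end Pool.Agent.Lib.MP_02f36d_nt.NP
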